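import Pool.Agent.Lib.MP_640417_ag.Four.Der
import Pool.Agent.Lib.MP_640417_ag.Glob.Coord
import Pool.Agent.Lib.MP_640417_ag.Glob.CoordX

/-!
# MP_640417_ag, Ctl, module CoordD (120 lines): Tate classes and derivations in coordinates

`R` is `ρ` in the basis `e` (`exists_coord` in `Glob/Coord.lean`). Transport Tate classes with `ExteriorAlgebra.map` of
`fun y a => e.equivFun (y a)` and of its inverse, as in `coord_ex` in `Glob/CoordX.lean` (its private lemmas `coordx_mem`,
`coordx_tate` may be copied; `Four/Transport.lean` is similar). Derivations: `isDer_Dv` and uniqueness (`IsDer.unique`), i.e. if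
`φ : W → W'` is linear and `φ ∘ s = s' ∘ φ` then `map φ ∘ D = D' ∘ map φ` for `IsDer D s`, `IsDer D' s'`
(`ExteriorAlgebra.induction` or as in `map_Dv`, `map_co_Dv` in `Four/Der.lean`), here `φ` is an isomorphism, so
`map φ` is injective.
-/

set_option autoImplicit false

namespace Pool.Agent.Lib.MP_640417_ag.Ctl

open Filter Topology Matrix Module Pool.Agent.Lib.MP_640417_ag Pool.Agent.Lib.MP_640417_ag.Frob
  Pool.Agent.Lib.MP_640417_ag.Glob Pool.Agent.Lib.MP_640417_ag.Four

section coordd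

variable {Γ : Type} [Group Γ] [TopologicalSpace Γ] {F : Type} [Field F]

private theorem coordd_mem {V W : Type} [AddCommGroup V] [Module F V] [AddCommGroup W] [Module F W]
    (g : V →ₗ[F] W) (m : ℕ) (x : ExteriorAlgebra F V) (hx : x ∈ ⋀[F]^m V) :
    ExteriorAlgebra.map g x ∈ ⋀[F]^m W := by
  have h : Submodule.map (ExteriorAlgebra.map g).toLinearMap (⋀[F]^m V) ≤ ⋀[F]^m W := by
    rw [Submodule.map_pow]
    have h1 : Submodule.map (ExteriorAlgebra.map g).toLinearMap (LinearMap.range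
        (ExteriorAlgebra.ι F : V →ₗ[F] ExteriorAlgebra F V)) ≤ LinearMap.range
        (ExteriorAlgebra.ι F : W →ₗ[F] ExteriorAlgebra F W) := by
      rintro _ ⟨_, ⟨v, rfl⟩, rfl⟩
      refine ⟨g v, ?_⟩
      simp
    exact pow_le_pow_left' h1 m
  exact h ⟨x, hx, rfl⟩

private theorem coordd_tate {V W : Type} [AddCommGroup V] [Module F V] [AddCommGroup W]
    [Module F W] (T : Γ → V →ₗ[F] V) (S : Γ → W →ₗ[F] W) (χ : Γ →* Fˣ) (g : V →ₗ[F] W)
    (hg : ∀ γ, g ∘ₗ T γ = S γ ∘ₗ g) (i : ℕ) (x : ExteriorAlgebra F V) (hx : TateClass T χ i x) :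
    TateClass S χ i (ExteriorAlgebra.map g x) := by
  obtain ⟨h1, U, hU⟩ := hx
  refine ⟨coordd_mem g _ x h1, U, fun γ hγ => ?_⟩
  have h2 := congrArg (ExteriorAlgebra.map g) (hU γ hγ)
  have h3 : ExteriorAlgebra.map (S γ) (ExteriorAlgebra.map g x) =
      ExteriorAlgebra.map g (ExteriorAlgebra.map (T γ) x) := by
    have e1 : (ExteriorAlgebra.map (S γ)).comp (ExteriorAlgebra.map g) =
        (ExteriorAlgebra.map g).comp (ExteriorAlgebra.map (T γ)) := by
      rw [ExteriorAlgebra.map_comp_map, ExteriorAlgebra.map_comp_map, hg]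
    exact congrArg (fun a => a x) e1
  rw [h3, ← map_smul]
  exact h2

private theorem coordd_dv {V W : Type} [AddCommGroup V] [Module F V] [AddCommGroup W]
    [Module F W] [FiniteDimensional F V] [FiniteDimensional F W] (n : ℕ) (g : V →ₗ[F] W)
    (g' : W →ₗ[F] V) (hg' : g' ∘ₗ g = LinearMap.id) (M : Module.End F V) (M' : Module.End F W)
    (hM : ∀ v, g (M v) = M' (g v)) (x : ExteriorAlgebra F (Fin n → V)) :
    Dv n M' (ExteriorAlgebra.map (g.compLeft (Fin n)) x) = 0 ↔ Dv n M x = 0 := by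
  have h1 : ExteriorAlgebra.map (g.compLeft (Fin n)) (Dv n M x) =
      Dv n M' (ExteriorAlgebra.map (g.compLeft (Fin n)) x) :=
    (isDer_Dv n M).map (isDer_Dv n M') (g.compLeft (Fin n))
      (fun w => funext fun a => hM (w a)) x
  have h2 : ∀ z : ExteriorAlgebra F (Fin n → V),
      ExteriorAlgebra.map (g'.compLeft (Fin n)) (ExteriorAlgebra.map (g.compLeft (Fin n)) z) =
        z := by
    intro z
    have e1 : (ExteriorAlgebra.map (g'.compLeft (Fin n))).comp
        (ExteriorAlgebra.map (g.compLeft (Fin n))) = AlgHom.id F _ := by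
      have e2 : g'.compLeft (Fin n) ∘ₗ g.compLeft (Fin n) = LinearMap.id :=
        LinearMap.ext fun y => funext fun a => LinearMap.congr_fun hg' (y a)
      rw [ExteriorAlgebra.map_comp_map, e2, ExteriorAlgebra.map_id]
    exact congrArg (fun a => a z) e1
  rw [← h1]
  constructor
  · intro h
    rw [← h2 (Dv n M x), h, map_zero]
  · intro h
    rw [h, map_zero]

end coordd

variable {F : Type} [NontriviallyNormedField F] {I : Type} [Fintype I] [DecidableEq I]
  {Γ : Type} [Group Γ] [TopologicalSpace Γ] {V : Type} [AddCommGroup V] [Module F V]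
  [FiniteDimensional F V]

/-- transport of a Tate class to coordinates, together with the derivation -/
theorem coord_dv (ρ : H1Rep Γ F V) (e : Basis I F V) (R : MRep Γ F I)
    (h1 : ∀ γ, R.M γ = LinearMap.toMatrix e e (ρ.T γ)) (h2 : R.μ = ρ.χ⁻¹) (n i : ℕ)
    (x : ExteriorAlgebra F (Fin n → V))
    (hx : TateClass (fun γ => (ρ.T γ).compLeft (Fin n)) ρ.χ i x) :
    ∃ y : ExteriorAlgebra F (Fin n → I → F), TateClass (R.act n) R.μ⁻¹ i y ∧
      ∀ M : Module.End F V, Dv n (Matrix.toLin' (LinearMap.toMatrix e e M)) y = 0 ↔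
        Dv n M x = 0 := by
  have hμ : R.μ⁻¹ = ρ.χ := MonoidHom.ext fun γ => by
    rw [MonoidHom.inv_apply, h2, MonoidHom.inv_apply, inv_inv]
  rw [hμ]
  have hM : ∀ (M : Module.End F V) (y : V), e.equivFun (M y) =
      Matrix.toLin' (LinearMap.toMatrix e e M) (e.equivFun y) := by
    intro M y
    rw [Matrix.toLin'_apply]
    exact (LinearMap.toMatrix_mulVec_repr e e M y).symm
  refine ⟨ExteriorAlgebra.map (e.equivFun.toLinearMap.compLeft (Fin n)) x, ?_, fun M => ?_⟩
  · refine coordd_tate (fun γ => (ρ.T γ).compLeft (Fin n)) (R.act n) ρ.χ _ (fun γ => ?_) i x hx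
    refine LinearMap.ext fun v => funext fun k => ?_
    change e.equivFun (ρ.T γ (v k)) = Matrix.toLin' (R.M γ) (e.equivFun (v k))
    rw [hM, h1]
  · exact coordd_dv n e.equivFun.toLinearMap e.equivFun.symm.toLinearMap
      (LinearMap.ext fun y => e.equivFun.symm_apply_apply y) M _ (hM M) x

/-- the same in the other direction -/
theorem coord_dv' (ρ : H1Rep Γ F V) (e : Basis I F V) (R : MRep Γ F I)
    (h1 : ∀ γ, R.M γ = LinearMap.toMatrix e e (ρ.T γ)) (h2 : R.μ = ρ.χ⁻¹) (n i : ℕ)
    (y : ExteriorAlgebra F (Fin n → I → F)) (hy : TateClass (R.act n) R.μ⁻¹ i y) :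
    ∃ x : ExteriorAlgebra F (Fin n → V), TateClass (fun γ => (ρ.T γ).compLeft (Fin n)) ρ.χ i x ∧
      ∀ M : Module.End F V, Dv n M x = 0 ↔
        Dv n (Matrix.toLin' (LinearMap.toMatrix e e M)) y = 0 := by
  have hμ : R.μ⁻¹ = ρ.χ := MonoidHom.ext fun γ => by
    rw [MonoidHom.inv_apply, h2, MonoidHom.inv_apply, inv_inv]
  rw [hμ] at hy
  have hM : ∀ (M : Module.End F V) (v : I → F), e.equivFun.symm
      (Matrix.toLin' (LinearMap.toMatrix e e M) v) = M (e.equivFun.symm v) := by
    intro M v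
    rw [LinearEquiv.symm_apply_eq, Matrix.toLin'_apply]
    have h3 := LinearMap.toMatrix_mulVec_repr e e M (e.equivFun.symm v)
    have h4 : (e.repr (e.equivFun.symm v) : I → F) = v := e.equivFun.apply_symm_apply v
    rw [h4] at h3
    exact h3
  refine ⟨ExteriorAlgebra.map (e.equivFun.symm.toLinearMap.compLeft (Fin n)) y, ?_, fun M => ?_⟩
  · refine coordd_tate (R.act n) (fun γ => (ρ.T γ).compLeft (Fin n)) ρ.χ _ (fun γ => ?_) i y hy
    refine LinearMap.ext fun v => funext fun k => ?_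
    change e.equivFun.symm (Matrix.toLin' (R.M γ) (v k)) = ρ.T γ (e.equivFun.symm (v k))
    rw [← hM, h1]
  · exact coordd_dv n e.equivFun.symm.toLinearMap e.equivFun.toLinearMap
      (LinearMap.ext fun y => e.equivFun.apply_symm_apply y) _ M (hM M) y

end Pool.Agent.Lib.MP_640417_ag.Ctl
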