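import Pool.Agent.Lib.MP_640417_ag.Four.Defs
import Pool.Agent.Lib.MP_640417_ag.Four.Der
import Pool.Agent.Lib.MP_640417_ag.Ty.Defs

/-!
# MP_640417_ag: the Lefschetz Lie algebra, central elements, weights, good and detecting elements

`ρ` is an `H1Rep` (the `l`-adic cohomology `H^1` of an abelian variety), `K` an algebraic closure of `F`. No condition on the
endomorphisms.
-/

set_option autoImplicit false

namespace Pool.Agent.Lib.MP_640417_ag.Ctl

open Matrix Module TensorProduct Pool.Agent.Lib.MP_640417_ag Pool.Agent.Lib.MP_640417_ag.Frob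
  Pool.Agent.Lib.MP_640417_ag.Four Pool.Agent.Lib.MP_640417_ag.Ty

variable {Γ : Type} [Group Γ] [TopologicalSpace Γ] {F : Type} [Field F]
  [TopologicalSpace F] {V : Type} [AddCommGroup V] [Module F V]

/-- `z` commutes with an open subgroup and with everything which does so, and it is skew. -/
def CentralSkew (ρ : H1Rep Γ F V) (z : Module.End F V) : Prop :=
  (∃ U : OpenSubgroup Γ, ∀ γ ∈ U, z * ρ.T γ = ρ.T γ * z) ∧
  (∀ c : Module.End F V, (∃ U : OpenSubgroup Γ, ∀ γ ∈ U, c * ρ.T γ = ρ.T γ * c) → z * c = c * z) ∧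
  ∀ x y, ρ.form (z x) y + ρ.form x (z y) = 0

/-- `X` is skew and commutes with everything which commutes with an open subgroup: the Lie algebra of the
Lefschetz group. -/
def Lefschetz (ρ : H1Rep Γ F V) (X : Module.End F V) : Prop :=
  (∀ c : Module.End F V, (∃ U : OpenSubgroup Γ, ∀ γ ∈ U, c * ρ.T γ = ρ.T γ * c) → X * c = c * X) ∧
  ∀ x y, ρ.form (X x) y + ρ.form x (X y) = 0

/-- The weight space of `(z, κ)`: generalized eigenvectors of `γ` for `z`, on which the central skew elements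
`c` act by `κ c`. -/
noncomputable def Wt (ρ : H1Rep Γ F V) (γ : Γ) (z : AlgebraicClosure F)
    (κ : Module.End F V → AlgebraicClosure F) :
    Submodule (AlgebraicClosure F) (AlgebraicClosure F ⊗[F] V) :=
  Module.End.maxGenEigenspace ((ρ.T γ).baseChange (AlgebraicClosure F)) z ⊓
    ⨅ c : {c : Module.End F V // CentralSkew ρ c},
      Module.End.eigenspace (c.1.baseChange (AlgebraicClosure F)) (κ c.1)

/-- the weights `(z, κ)` and `(z', κ')` are dual -/
def Dual (ρ : H1Rep Γ F V) (γ : Γ) (z : AlgebraicClosure F)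
    (κ : Module.End F V → AlgebraicClosure F) (z' : AlgebraicClosure F)
    (κ' : Module.End F V → AlgebraicClosure F) : Prop :=
  z * z' = algebraMap F (AlgebraicClosure F) ((ρ.χ γ)⁻¹ : Fˣ).val ∧
    ∀ c, CentralSkew ρ c → κ c + κ' c = 0

/-- The weight `(z, κ)` is isolated: it is not its own dual, the commutant acts irreducibly on the weight
space, and `(z, κ)` occurs in no nontrivial relation between four weights. -/
def Isolated (ρ : H1Rep Γ F V) (γ : Γ) (z : AlgebraicClosure F)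
    (κ : Module.End F V → AlgebraicClosure F) : Prop :=
  ¬ Dual ρ γ z κ z κ ∧
  (∀ N : Submodule (AlgebraicClosure F) (AlgebraicClosure F ⊗[F] V), N ≤ Wt ρ γ z κ →
    (∀ c, CommF ρ c → ∀ y ∈ N, c.baseChange (AlgebraicClosure F) y ∈ N) →
    N = ⊥ ∨ N = Wt ρ γ z κ) ∧
  ∀ z₂ κ₂ z₃ κ₃ z₄ κ₄, Wt ρ γ z₂ κ₂ ≠ ⊥ → Wt ρ γ z₃ κ₃ ≠ ⊥ → Wt ρ γ z₄ κ₄ ≠ ⊥ →
    (∀ c, CentralSkew ρ c → κ c + κ₂ c + κ₃ c + κ₄ c = 0) → ∀ N : ℕ, 0 < N →
    (z * z₂ * z₃ * z₄) ^ N = (algebraMap F (AlgebraicClosure F) ((ρ.χ γ)⁻¹ : Fˣ).val) ^ (2 * N) →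
      Dual ρ γ z κ z₂ κ₂ ∨ Dual ρ γ z κ z₃ κ₃ ∨ Dual ρ γ z κ z₄ κ₄

/-- `γ` commutes with the commutant, and all its weights are isolated. -/
def Good (ρ : H1Rep Γ F V) (γ : Γ) : Prop :=
  (∀ c, CommF ρ c → c * ρ.T γ = ρ.T γ * c) ∧
  ∀ z κ, Wt ρ γ z κ ≠ ⊥ → Isolated ρ γ z κ

/-- `γ` is semisimple and commutes with the commutant, and an element of the commutant over `K` is
zero if it vanishes on all isolated weight spaces. -/
def Detects (ρ : H1Rep Γ F V) (γ : Γ) : Prop :=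
  (∀ c, CommF ρ c → c * ρ.T γ = ρ.T γ * c) ∧ (ρ.T γ).IsSemisimple ∧
  ∀ c, CommK ρ c → (∀ z κ, Isolated ρ γ z κ → ∀ y ∈ Wt ρ γ z κ, c y = 0) → c = 0

end Pool.Agent.Lib.MP_640417_ag.Ctl
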