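import Pool.Agent.Lib.MP_640417_ag.Four.Der
import Pool.Agent.Lib.MP_640417_ag.Glob.Class

/-!
# MP_640417_ag, Ctl, module DerE (150 lines): derivations and tensors of degree four

`X` a matrix, `Dv 4 (toLin' X)` the derivation of the exterior algebra of `V^4`, `V = I → F` (`Four/Der.lean`; `isDer_Dv`).
* `der_emb`: `Dv 4 X (e_i ∧ e_j ∧ e_u ∧ e_v) = (X e_i) ∧ e_j ∧ e_u ∧ e_v + ..` (use `isDer_Dv` for products of vectors, the last
  factor as `ι w * 1`; `bv F a i` is `ι (Pi.single a (Pi.single i 1))` and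
  `(toLin' X).compLeft (Pi.single a (Pi.single i 1)) = ∑ x, X x i • Pi.single a (Pi.single x 1)`), then exchange sums.
* `der_tQ`: `tQ J Q i j u v = (Q (J⁻¹ E_vu) J⁻¹) i j`. The first two summands of `der4 X` give
  `(X N + N Xᵀ) i j`, `N = Q (J⁻¹ E_vu) J⁻¹`, and `J⁻¹ Xᵀ = - X J⁻¹`, so `((X Q(Y) - Q(Y) X) J⁻¹) i j`, `Y = J⁻¹ E_vu`. The last two:
  `∑_u' X u u' E_vu' = E_vu X`, `∑_v' X v v' E_v'u = Xᵀ E_vu`, so `Q (J⁻¹ E_vu X + J⁻¹ Xᵀ E_vu) = Q (Y X - X Y)`.
* `comm_of_der`: if `der4 X (tQ J Q) = 0` then the difference vanishes for all `Y = J⁻¹ E_vu` (cancel `J⁻¹`), which span all matrices.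
  (`emb t = 0` gives `t = 0`: `Glob/Emb.lean` and `comm_of_act4` in `Glob/Class.lean`.)
* `der_of_comm`: the converse, from `der_emb` and `der_tQ`.
-/

set_option autoImplicit false

namespace Pool.Agent.Lib.MP_640417_ag.Ctl

open Matrix Pool.Agent.Lib.MP_640417_ag.Glob Pool.Agent.Lib.MP_640417_ag.Four

variable {F : Type} [Field F] {I : Type} [Fintype I] [DecidableEq I]

/-- the derivation on tensors -/
def der4 (X : Matrix I I F) (t : I → I → I → I → F) : I → I → I → I → F := fun i j u v =>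
  ∑ x, X i x * t x j u v + ∑ x, X j x * t i x u v + ∑ x, X u x * t i j x v +
    ∑ x, X v x * t i j u x

omit [DecidableEq I] in
private theorem exch {E : Type} [AddCommGroup E] [Module F E] (X : Matrix I I F) (c : I → F)
    (G : I → E) : ∑ i, c i • ∑ x, X x i • G x = ∑ i, (∑ x, X i x * c x) • G i := by
  simp only [Finset.smul_sum, Finset.sum_smul]
  rw [Finset.sum_comm]
  refine Finset.sum_congr rfl fun i _ => Finset.sum_congr rfl fun x _ => ?_
  rw [smul_smul, mul_comm]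

omit [DecidableEq I] in
private theorem mv3 {E : Type} [AddCommMonoid E] (f : I → I → I → E) :
    ∑ j, ∑ u, ∑ v, f j u v = ∑ u, ∑ v, ∑ j, f j u v := by
  rw [Finset.sum_comm]
  exact Finset.sum_congr rfl fun u _ => Finset.sum_comm

omit [DecidableEq I] in
private theorem mv4 {E : Type} [AddCommMonoid E] (f : I → I → I → I → E) :
    ∑ i, ∑ j, ∑ u, ∑ v, f i j u v = ∑ j, ∑ u, ∑ v, ∑ i, f i j u v := by
  rw [Finset.sum_comm]
  exact Finset.sum_congr rfl fun j _ => mv3 fun i u v => f i j u v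

private theorem comp_single (S : Matrix I I F) (a : Fin 4) (i' : I) :
    ExteriorAlgebra.ι F (((Matrix.toLin' S).compLeft (Fin 4)) (Pi.single a (Pi.single i' (1 : F)))) =
      ∑ i, S i i' • bv F a i := by
  unfold bv
  simp only [← map_smul, ← map_sum]
  congr 1
  funext b
  funext x
  rw [LinearMap.compLeft_apply, Function.comp_apply, Matrix.toLin'_apply]
  rw [Finset.sum_apply, Finset.sum_apply]
  by_cases h : b = a
  · subst h
    simp only [Pi.single_eq_same, Pi.smul_apply, Matrix.mulVec_single, smul_eq_mul]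
    simp [Pi.single_apply]
  · simp [Pi.single_eq_of_ne h]

private theorem Dv_bv (X : Matrix I I F) (a : Fin 4) (i : I)
    (y : ExteriorAlgebra F (Fin 4 → I → F)) :
    Dv 4 (Matrix.toLin' X) (bv F a i * y) =
      (∑ x, X x i • bv F a x) * y + bv F a i * Dv 4 (Matrix.toLin' X) y := by
  rw [← comp_single]
  exact (isDer_Dv 4 (Matrix.toLin' X)).2 _ y

private theorem Dv_prod (X : Matrix I I F) (i j u v : I) :
    Dv 4 (Matrix.toLin' X) (bv F 0 i * bv F 1 j * bv F 2 u * bv F 3 v) =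
      ∑ x, X x i • (bv F 0 x * bv F 1 j * bv F 2 u * bv F 3 v) +
      ∑ x, X x j • (bv F 0 i * bv F 1 x * bv F 2 u * bv F 3 v) +
      ∑ x, X x u • (bv F 0 i * bv F 1 j * bv F 2 x * bv F 3 v) +
      ∑ x, X x v • (bv F 0 i * bv F 1 j * bv F 2 u * bv F 3 x) := by
  have h1 : Dv 4 (Matrix.toLin' X) (1 : ExteriorAlgebra F (Fin 4 → I → F)) = 0 := by
    have h := (isDer_Dv 4 (Matrix.toLin' X)).1 1
    rwa [map_one] at h
  have h2 : bv F 0 i * bv F 1 j * bv F 2 u * bv F 3 v =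
      bv F 0 i * (bv F 1 j * (bv F 2 u * (bv F 3 v * 1))) := by
    simp only [mul_assoc, mul_one]
  rw [h2, Dv_bv, Dv_bv, Dv_bv, Dv_bv, h1]
  simp only [mul_zero, add_zero, mul_one, mul_add, Finset.sum_mul, Finset.mul_sum, smul_mul_assoc,
    mul_smul_comm, mul_assoc]
  abel

theorem der_emb (X : Matrix I I F) (t : I → I → I → I → F) :
    Dv 4 (Matrix.toLin' X) (emb t) = emb (der4 X t) := by
  have h1 : ∑ i, ∑ j, ∑ u, ∑ v, t i j u v •
      ∑ x, X x i • (bv F 0 x * bv F 1 j * bv F 2 u * bv F 3 v) =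
      ∑ i, ∑ j, ∑ u, ∑ v, (∑ x, X i x * t x j u v) •
        (bv F 0 i * bv F 1 j * bv F 2 u * bv F 3 v) := by
    rw [mv4 fun i j u v => t i j u v • ∑ x, X x i • (bv F 0 x * bv F 1 j * bv F 2 u * bv F 3 v),
      mv4 fun i j u v => (∑ x, X i x * t x j u v) • (bv F 0 i * bv F 1 j * bv F 2 u * bv F 3 v)]
    exact Finset.sum_congr rfl fun j _ => Finset.sum_congr rfl fun u _ =>
      Finset.sum_congr rfl fun v _ => exch X (fun i => t i j u v)
        fun i => bv F 0 i * bv F 1 j * bv F 2 u * bv F 3 v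
  have h2 : ∑ i, ∑ j, ∑ u, ∑ v, t i j u v •
      ∑ x, X x j • (bv F 0 i * bv F 1 x * bv F 2 u * bv F 3 v) =
      ∑ i, ∑ j, ∑ u, ∑ v, (∑ x, X j x * t i x u v) •
        (bv F 0 i * bv F 1 j * bv F 2 u * bv F 3 v) := by
    refine Finset.sum_congr rfl fun i _ => ?_
    rw [mv3 fun j u v => t i j u v • ∑ x, X x j • (bv F 0 i * bv F 1 x * bv F 2 u * bv F 3 v),
      mv3 fun j u v => (∑ x, X j x * t i x u v) • (bv F 0 i * bv F 1 j * bv F 2 u * bv F 3 v)]
    exact Finset.sum_congr rfl fun u _ =>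
      Finset.sum_congr rfl fun v _ => exch X (fun j => t i j u v)
        fun j => bv F 0 i * bv F 1 j * bv F 2 u * bv F 3 v
  have h3 : ∑ i, ∑ j, ∑ u, ∑ v, t i j u v •
      ∑ x, X x u • (bv F 0 i * bv F 1 j * bv F 2 x * bv F 3 v) =
      ∑ i, ∑ j, ∑ u, ∑ v, (∑ x, X u x * t i j x v) •
        (bv F 0 i * bv F 1 j * bv F 2 u * bv F 3 v) := by
    refine Finset.sum_congr rfl fun i _ => Finset.sum_congr rfl fun j _ => ?_
    rw [Finset.sum_comm]
    conv_rhs => rw [Finset.sum_comm]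
    exact Finset.sum_congr rfl fun v _ => exch X (fun u => t i j u v)
        fun u => bv F 0 i * bv F 1 j * bv F 2 u * bv F 3 v
  have h4 : ∑ i, ∑ j, ∑ u, ∑ v, t i j u v •
      ∑ x, X x v • (bv F 0 i * bv F 1 j * bv F 2 u * bv F 3 x) =
      ∑ i, ∑ j, ∑ u, ∑ v, (∑ x, X v x * t i j u x) •
        (bv F 0 i * bv F 1 j * bv F 2 u * bv F 3 v) :=
    Finset.sum_congr rfl fun i _ => Finset.sum_congr rfl fun j _ =>
      Finset.sum_congr rfl fun u _ => exch X (fun v => t i j u v)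
        fun v => bv F 0 i * bv F 1 j * bv F 2 u * bv F 3 v
  unfold emb der4
  simp only [map_sum, map_smul, Dv_prod, smul_add, add_smul, Finset.sum_add_distrib]
  rw [h1, h2, h3, h4]

private theorem single_right (X : Matrix I I F) (u v : I) :
    ∑ x, X u x • Matrix.single v x (1 : F) = Matrix.single v u (1 : F) * X := by
  ext a b
  rw [Matrix.sum_apply, Finset.sum_eq_single b]
  · rw [Matrix.mul_apply, Finset.sum_eq_single u]
    · simp only [Matrix.smul_apply, smul_eq_mul, Matrix.single, Matrix.of_apply, and_true]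
      by_cases h : v = a <;> simp [h]
    · intro c _ hc
      simp [Matrix.single, Ne.symm hc]
    · intro h
      exact absurd (Finset.mem_univ _) h
  · intro c _ hc
    simp [Matrix.single, hc]
  · intro h
    exact absurd (Finset.mem_univ _) h

private theorem single_left (X : Matrix I I F) (u v : I) :
    ∑ x, X v x • Matrix.single x u (1 : F) = Xᵀ * Matrix.single v u (1 : F) := by
  ext a b
  rw [Matrix.sum_apply, Finset.sum_eq_single a]
  · rw [Matrix.mul_apply, Finset.sum_eq_single v]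
    · simp only [Matrix.smul_apply, smul_eq_mul, Matrix.single, Matrix.of_apply, true_and,
        Matrix.transpose_apply]
    · intro c _ hc
      simp [Matrix.single, Ne.symm hc]
    · intro h
      exact absurd (Finset.mem_univ _) h
  · intro c _ hc
    simp [Matrix.single, hc]
  · intro h
    exact absurd (Finset.mem_univ _) h

private theorem J_skew {J X : Matrix I I F} (hJ : J.det ≠ 0) (hX : Xᵀ * J + J * X = 0) :
    J⁻¹ * Xᵀ = -(X * J⁻¹) := by
  have hu : IsUnit J.det := isUnit_iff_ne_zero.mpr hJ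
  have h1 : Xᵀ * J = -(J * X) := eq_neg_of_add_eq_zero_left hX
  calc J⁻¹ * Xᵀ = J⁻¹ * (Xᵀ * J) * J⁻¹ := by
        rw [Matrix.mul_assoc, Matrix.mul_assoc, Matrix.mul_nonsing_inv _ hu, Matrix.mul_one]
    _ = -(X * J⁻¹) := by
        rw [h1, Matrix.mul_neg, Matrix.neg_mul, ← Matrix.mul_assoc,
          Matrix.nonsing_inv_mul _ hu, Matrix.one_mul]

theorem der_tQ (J : Matrix I I F) (hJ : J.det ≠ 0) (Q : Matrix I I F →ₗ[F] Matrix I I F)
    (X : Matrix I I F) (hX : Xᵀ * J + J * X = 0) (i j u v : I) :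
    der4 X (tQ J Q) i j u v = ((X * Q (J⁻¹ * Matrix.single v u (1 : F)) -
      Q (J⁻¹ * Matrix.single v u (1 : F)) * X -
      Q (X * (J⁻¹ * Matrix.single v u (1 : F)) - J⁻¹ * Matrix.single v u (1 : F) * X)) * J⁻¹) i j := by
  have h0 := J_skew hJ hX
  have e1 : ∑ x, X i x * tQ J Q x j u v =
      (X * Q (J⁻¹ * Matrix.single v u (1 : F)) * J⁻¹) i j := by
    rw [Matrix.mul_assoc, Matrix.mul_apply]
    rfl
  have e2 : ∑ x, X j x * tQ J Q i x u v =
      -(Q (J⁻¹ * Matrix.single v u (1 : F)) * X * J⁻¹) i j := by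
    have h1 : (Q (J⁻¹ * Matrix.single v u (1 : F)) * J⁻¹) * Xᵀ =
        -(Q (J⁻¹ * Matrix.single v u (1 : F)) * X * J⁻¹) := by
      rw [Matrix.mul_assoc, h0, Matrix.mul_neg, Matrix.mul_assoc]
    rw [← Matrix.neg_apply, ← h1, Matrix.mul_apply]
    refine Finset.sum_congr rfl fun x _ => ?_
    rw [Matrix.transpose_apply, mul_comm]
    rfl
  have e3 : ∑ x, X u x * tQ J Q i j x v =
      (Q (J⁻¹ * Matrix.single v u (1 : F) * X) * J⁻¹) i j := by
    rw [Matrix.mul_assoc J⁻¹, ← single_right X u v]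
    simp only [Finset.mul_sum, map_sum, Matrix.mul_smul, map_smul, Finset.sum_mul,
      Matrix.smul_mul, Matrix.sum_apply, Matrix.smul_apply, smul_eq_mul]
    rfl
  have e4 : ∑ x, X v x * tQ J Q i j u x =
      -(Q (X * (J⁻¹ * Matrix.single v u (1 : F))) * J⁻¹) i j := by
    have h1 : X * (J⁻¹ * Matrix.single v u (1 : F)) = -(J⁻¹ * (Xᵀ * Matrix.single v u (1 : F))) := by
      rw [← Matrix.mul_assoc, ← Matrix.mul_assoc, h0, Matrix.neg_mul, neg_neg]
    rw [h1, ← single_left X u v, map_neg, Matrix.neg_mul, Matrix.neg_apply, neg_neg]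
    simp only [Finset.mul_sum, map_sum, Matrix.mul_smul, map_smul, Finset.sum_mul,
      Matrix.smul_mul, Matrix.sum_apply, Matrix.smul_apply, smul_eq_mul]
    rfl
  unfold der4
  rw [e1, e2, e3, e4, Matrix.sub_mul, Matrix.sub_mul, map_sub, Matrix.sub_mul, Matrix.sub_apply,
    Matrix.sub_apply, Matrix.sub_apply]
  ring

private theorem emb_zero : emb (fun _ _ _ _ : I => (0 : F)) = 0 := by
  unfold emb
  simp

theorem comm_of_der (J : Matrix I I F) (hJ : J.det ≠ 0) (Q : Matrix I I F →ₗ[F] Matrix I I F)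
    (X : Matrix I I F) (hX : Xᵀ * J + J * X = 0)
    (h : Dv 4 (Matrix.toLin' X) (emb (tQ J Q)) = 0) (Y : Matrix I I F) :
    X * Q Y - Q Y * X = Q (X * Y - Y * X) := by
  have hu : IsUnit J.det := isUnit_iff_ne_zero.mpr hJ
  rw [der_emb, ← emb_zero] at h
  have h1 := emb_inj h
  have h4 : ∀ v u : I, X * Q (J⁻¹ * Matrix.single v u (1 : F)) -
      Q (J⁻¹ * Matrix.single v u (1 : F)) * X =
      Q (X * (J⁻¹ * Matrix.single v u (1 : F)) - J⁻¹ * Matrix.single v u (1 : F) * X) := by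
    intro v u
    have e1 : (X * Q (J⁻¹ * Matrix.single v u (1 : F)) -
      Q (J⁻¹ * Matrix.single v u (1 : F)) * X -
      Q (X * (J⁻¹ * Matrix.single v u (1 : F)) - J⁻¹ * Matrix.single v u (1 : F) * X)) * J⁻¹ = 0 := by
      ext i j
      rw [← der_tQ J hJ Q X hX i j u v, h1]
      rfl
    have e2 := congrArg (· * J) e1
    simp only [Matrix.mul_assoc, Matrix.nonsing_inv_mul _ hu, Matrix.mul_one, Matrix.zero_mul] at e2
    simp only [Matrix.mul_assoc]
    exact sub_eq_zero.1 e2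
  have h5 : Y = ∑ v, ∑ u, ((J * Y) v u) • (J⁻¹ * Matrix.single v u (1 : F)) := by
    have e1 : J * Y = ∑ v, ∑ u, ((J * Y) v u) • Matrix.single v u (1 : F) := by
      conv_lhs => rw [Matrix.matrix_eq_sum_single (J * Y)]
      simp only [Matrix.smul_single, smul_eq_mul, mul_one]
    have e2 : Y = J⁻¹ * (J * Y) := by
      rw [← Matrix.mul_assoc, Matrix.nonsing_inv_mul _ hu, Matrix.one_mul]
    conv_lhs => rw [e2, e1]
    simp only [Finset.mul_sum, Matrix.mul_smul]
  rw [h5]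
  simp only [Finset.mul_sum, Finset.sum_mul, Matrix.mul_smul, Matrix.smul_mul, map_sum, map_smul,
    ← Finset.sum_sub_distrib, ← smul_sub, h4]

theorem der_of_comm (J : Matrix I I F) (hJ : J.det ≠ 0) (Q : Matrix I I F →ₗ[F] Matrix I I F)
    (X : Matrix I I F) (hX : Xᵀ * J + J * X = 0)
    (h : ∀ Y, X * Q Y - Q Y * X = Q (X * Y - Y * X)) :
    Dv 4 (Matrix.toLin' X) (emb (tQ J Q)) = 0 := by
  rw [der_emb, ← emb_zero]
  congr 1
  funext i j u v
  rw [der_tQ J hJ Q X hX i j u v, h, sub_self, Matrix.zero_mul]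
  rfl

end Pool.Agent.Lib.MP_640417_ag.Ctl
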