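import Pool.Agent.Lib.MP_640417_ag.Glob.Rad

/-!
# MP_640417_ag, Ctl, module Plus (220 lines): the Lie algebra together with the center of the commutant

`Zm` = the skew elements of the center of the commutant; `Hp = Hh ⊔ Zm`. Elements of `Zm` commute with `Hh` (`Hh_comm_C`)
and with each other. So `Hp` is a Lie algebra, and stable under conjugation with `M γ` (`Hh_ad`; `Zm_ad`: conjugation by `M γ`
permutes the commutant (`inC_conj`), hence its center, and preserves `spJ` as in `Hh_ad`).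
`zred` (no nilpotent elements in the center of the commutant): as `inC_red` in `Glob/RadA.lean`: let `N` be the set of
nilpotent central elements of the commutant (commuting, stable under conjugation), `K` the common kernel, `K'` a
stable complement, `e` the projection to `K'` along `K`, which is in the commutant, so it commutes with `N`, so `K'` is stable
under `N`; `exists_common`.
`Zm_vec`: a subspace `W` stable under all `M γ` is stable under `Zm`: the projection to `W` along a stable complement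
(`Semi`) commutes with all `M γ`, so it is in the commutant and commutes with `z ∈ Zm`.
`Hp_nondeg`: let `R` be the radical of the trace form on `Hp`. Copy the proof of `Hh_nondeg` (`Glob/Rad.lean`) steps 1-4 with `Hp`
instead of `Hh` (`Hp_ad`, `Hp_lie`, and `Hh_vec` together with `Zm_vec`; elements of `Zm` commute with `M γ` for `γ` in an open
subgroup, so step 4 works in the same way): elements `X ∈ R` are in the commutant, and they commute with the commutant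
(`Hh_comm_C`, definition of `Zm`), so `X` is central, and `X ∈ spJ`, so `X ∈ Zm`. Then `tr (X Y) = 0` for all central `Y` of the
commutant: `Y = Y⁺ + Y⁻`, the adjoint `Y* = J⁻¹ Yᵀ J` of a central element is central (adjoints of elements which commute with
`M γ`, `γ ∈ U`, do so), `Y⁻ ∈ Zm`, and for symmetric `Y⁺`: `tr (X Y⁺) = tr ((X Y⁺)*) = tr (Y⁺* X*) = - tr (Y⁺ X)`. So
`tr (X^n) = 0` for all `n ≥ 1` (`X^(n-1)` is central, also `1`), so `X` is nilpotent (characteristic zero; search Mathlib and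
`Glob/Nil.lean`, `Glob/Killed.lean` for trace criteria), so `X = 0` by `zred`.
-/

set_option autoImplicit false

namespace Pool.Agent.Lib.MP_640417_ag.Ctl

open Filter Topology Matrix Pool.Agent.Lib.MP_640417_ag.Glob

variable {F : Type} [NontriviallyNormedField F] {I : Type} [Fintype I] [DecidableEq I]
  {Γ : Type} [Group Γ] [TopologicalSpace Γ]

/-- the skew elements of the center of the commutant -/
def Zm (ρ : MRep Γ F I) : Submodule F (Matrix I I F) where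
  carrier := {z | ρ.InC z ∧ (∀ c, ρ.InC c → z * c = c * z) ∧ z ∈ spJ ρ.J}
  zero_mem' := by
    refine ⟨⟨⊤, fun γ _ => ?_⟩, fun c _ => ?_, (spJ ρ.J).zero_mem⟩
    · rw [Matrix.mul_zero, Matrix.zero_mul]
    · rw [Matrix.mul_zero, Matrix.zero_mul]
  add_mem' := by
    rintro a b ⟨⟨U, hU⟩, ha2, ha3⟩ ⟨⟨U', hU'⟩, hb2, hb3⟩
    refine ⟨⟨U ⊓ U', fun γ hγ => ?_⟩, fun c hc => ?_, (spJ ρ.J).add_mem ha3 hb3⟩
    · rw [Matrix.mul_add, Matrix.add_mul, hU γ hγ.1, hU' γ hγ.2]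
    · rw [Matrix.mul_add, Matrix.add_mul, ha2 c hc, hb2 c hc]
  smul_mem' := by
    rintro s a ⟨⟨U, hU⟩, ha2, ha3⟩
    refine ⟨⟨U, fun γ hγ => ?_⟩, fun c hc => ?_, (spJ ρ.J).smul_mem s ha3⟩
    · rw [Matrix.mul_smul, Matrix.smul_mul, hU γ hγ]
    · rw [Matrix.mul_smul, Matrix.smul_mul, ha2 c hc]

/-- the Lie algebra together with the center -/
def Hp (ρ : MRep Γ F I) (l : ℕ) : Submodule F (Matrix I I F) := ρ.Hh l ⊔ Zm ρ

variable [IsUltrametricDist F] [CompleteSpace F] [CharZero F] [IsTopologicalGroup Γ]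
  [CompactSpace Γ] (ρ : MRep Γ F I)

omit [CompactSpace Γ] in
/-- conjugates of central elements of the commutant -/
private theorem center_conj {b : Matrix I I F} (hc : ∀ c, ρ.InC c → b * c = c * b) (γ : Γ)
    (c : Matrix I I F) (hcc : ρ.InC c) :
    ρ.M γ * b * ρ.M γ⁻¹ * c = c * (ρ.M γ * b * ρ.M γ⁻¹) := by
  have h1 := hc _ (by
    have h2 := inC_conj ρ hcc γ⁻¹
    rwa [inv_inv] at h2)
  calc ρ.M γ * b * ρ.M γ⁻¹ * c = ρ.M γ * (b * (ρ.M γ⁻¹ * c * ρ.M γ)) * ρ.M γ⁻¹ := by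
        rw [show ρ.M γ * (b * (ρ.M γ⁻¹ * c * ρ.M γ)) * ρ.M γ⁻¹ =
          ρ.M γ * b * ρ.M γ⁻¹ * c * (ρ.M γ * ρ.M γ⁻¹) by simp only [Matrix.mul_assoc],
          M_mul_inv, Matrix.mul_one]
    _ = ρ.M γ * ((ρ.M γ⁻¹ * c * ρ.M γ) * b) * ρ.M γ⁻¹ := by rw [h1]
    _ = (ρ.M γ * ρ.M γ⁻¹) * c * (ρ.M γ * b * ρ.M γ⁻¹) := by simp only [Matrix.mul_assoc]
    _ = _ := by rw [M_mul_inv, Matrix.one_mul]

omit [IsTopologicalGroup Γ] [CompactSpace Γ] in
private theorem conj_pow (X : Matrix I I F) (γ : Γ) (m : ℕ) :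
    (ρ.M γ * X * ρ.M γ⁻¹) ^ m = ρ.M γ * X ^ m * ρ.M γ⁻¹ := by
  induction m with
  | zero => rw [pow_zero, pow_zero, Matrix.mul_one, M_mul_inv]
  | succ m ih =>
    rw [pow_succ, ih, pow_succ]
    calc ρ.M γ * X ^ m * ρ.M γ⁻¹ * (ρ.M γ * X * ρ.M γ⁻¹) =
        ρ.M γ * X ^ m * (ρ.M γ⁻¹ * ρ.M γ) * X * ρ.M γ⁻¹ := by
          simp only [Matrix.mul_assoc]
      _ = ρ.M γ * (X ^ m * X) * ρ.M γ⁻¹ := by
          rw [M_inv_mul, Matrix.mul_one]
          simp only [Matrix.mul_assoc]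

omit [IsTopologicalGroup Γ] [CompactSpace Γ] in
/-- the projection to a stable subspace which commutes with everything -/
private theorem exists_e {W K : Submodule F (I → F)} (hW : ∀ γ, ∀ y ∈ W, ρ.M γ *ᵥ y ∈ W)
    (hK : ∀ γ, ∀ y ∈ K, ρ.M γ *ᵥ y ∈ K) (hc : IsCompl W K) :
    ∃ e : Matrix I I F, ρ.InC e ∧ (∀ y ∈ W, e *ᵥ y = y) ∧ ∀ y, e *ᵥ y ∈ W := by
  let f : (I → F) →ₗ[F] (I → F) := Submodule.projection W K hc
  have hf1 : ∀ y ∈ W, f y = y := fun y hy => Submodule.projection_apply_left hc ⟨y, hy⟩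
  have hf2 : ∀ y ∈ K, f y = 0 := fun y hy => Submodule.projection_apply_right hc ⟨y, hy⟩
  have hf3 : ∀ y, f y ∈ W := fun y => Submodule.projection_apply_mem hc y
  have he : ∀ y, (LinearMap.toMatrix' f) *ᵥ y = f y := fun y => LinearMap.toMatrix'_mulVec f y
  have hsplit : ∀ y : I → F, ∃ a ∈ W, ∃ k ∈ K, y = a + k := by
    intro y
    have h1 : y ∈ W ⊔ K := by
      rw [hc.sup_eq_top]
      trivial
    obtain ⟨a, ha, k, hk, h⟩ := Submodule.mem_sup.1 h1
    exact ⟨a, ha, k, hk, h.symm⟩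
  refine ⟨LinearMap.toMatrix' f, ⟨⊤, fun γ _ => ?_⟩, fun y hy => ?_, fun y => ?_⟩
  · refine (Matrix.toLin' : Matrix I I F ≃ₗ[F] _).injective (LinearMap.ext fun v => ?_)
    rw [Matrix.toLin'_apply, Matrix.toLin'_apply, ← Matrix.mulVec_mulVec, ← Matrix.mulVec_mulVec,
      he, he]
    obtain ⟨a, ha, k, hk, rfl⟩ := hsplit v
    rw [map_add, hf1 a ha, hf2 k hk, add_zero, Matrix.mulVec_add, map_add, hf1 _ (hW γ a ha),
      hf2 _ (hK γ k hk), add_zero]
  · rw [he, hf1 y hy]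
  · rw [he]
    exact hf3 y

omit [CompactSpace Γ] in
theorem zred (hsemi : ρ.Semi) {b : Matrix I I F} (hb : ρ.InC b)
    (hc : ∀ c, ρ.InC c → b * c = c * b) (hn : IsNilpotent b) : b = 0 := by
  let N : Submodule F (Matrix I I F) :=
    { carrier := {X | ρ.InC X ∧ (∀ c, ρ.InC c → X * c = c * X) ∧ IsNilpotent X}
      zero_mem' := ⟨by
        have h1 := inC_smul ρ 0 (inC_one ρ)
        rwa [zero_smul] at h1, fun c _ => by rw [Matrix.mul_zero, Matrix.zero_mul],
        IsNilpotent.zero⟩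
      add_mem' := fun {X Y} hX hY => ⟨inC_add ρ hX.1 hY.1, fun c hc => by
        rw [Matrix.mul_add, Matrix.add_mul, hX.2.1 c hc, hY.2.1 c hc],
        Commute.isNilpotent_add (hX.2.1 Y hY.1) hX.2.2 hY.2.2⟩
      smul_mem' := fun c X hX => ⟨inC_smul ρ c hX.1, fun d hd => by
        rw [Matrix.mul_smul, Matrix.smul_mul, hX.2.1 d hd], hX.2.2.smul c⟩ }
  have hNc : ∀ X ∈ N, ∀ Y ∈ N, X * Y = Y * X := fun X hX Y hY => hX.2.1 Y hY.1
  let K : Submodule F (I → F) :=
    { carrier := {v | ∀ X ∈ N, X *ᵥ v = 0}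
      zero_mem' := fun X _ => Matrix.mulVec_zero X
      add_mem' := fun {v w} hv hw X hX => by rw [Matrix.mulVec_add, hv X hX, hw X hX, add_zero]
      smul_mem' := fun c v hv X hX => by rw [Matrix.mulVec_smul, hv X hX, smul_zero] }
  have hK : ∀ γ, ∀ y ∈ K, ρ.M γ *ᵥ y ∈ K := by
    intro γ y hy X hX
    have h1 : ρ.M γ⁻¹ * X * ρ.M γ ∈ N := by
      have h2 := inC_conj ρ hX.1 γ⁻¹
      have h4 := center_conj ρ hX.2.1 γ⁻¹
      have h5 := conj_pow ρ X γ⁻¹
      rw [inv_inv] at h2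
      simp only [inv_inv] at h4 h5
      refine ⟨h2, h4, ?_⟩
      obtain ⟨m, hm⟩ := hX.2.2
      exact ⟨m, by rw [h5, hm, Matrix.mul_zero, Matrix.zero_mul]⟩
    have h2 : X * ρ.M γ = ρ.M γ * (ρ.M γ⁻¹ * X * ρ.M γ) := by
      rw [← Matrix.mul_assoc, ← Matrix.mul_assoc, M_mul_inv, Matrix.one_mul]
    rw [Matrix.mulVec_mulVec, h2, ← Matrix.mulVec_mulVec, hy _ h1, Matrix.mulVec_zero]
  obtain ⟨K', hK', hcc⟩ := hsemi K hK
  obtain ⟨e, heC, he1, he2⟩ := exists_e ρ hK' hK hcc.symm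
  have hbot : K' = ⊥ := by
    by_contra hne
    obtain ⟨v, hv, hv0, hvN⟩ := exists_common N hNc (fun X hX => hX.2.2) K' hne (by
      intro X hX y hy
      have h1 := hX.2.1 e heC
      have h2 : X *ᵥ y = e *ᵥ (X *ᵥ y) := by
        rw [Matrix.mulVec_mulVec, ← h1, ← Matrix.mulVec_mulVec, he1 y hy]
      rw [h2]
      exact he2 _)
    exact hv0 ((Submodule.disjoint_def.1 hcc.disjoint) v hvN hv)
  have htop : K = ⊤ := by
    have h1 := hcc.sup_eq_top
    rwa [hbot, sup_bot_eq] at h1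
  refine (Matrix.toLin' : Matrix I I F ≃ₗ[F] _).injective (LinearMap.ext fun v => ?_)
  have hv : v ∈ K := by
    rw [htop]
    trivial
  rw [Matrix.toLin'_apply, map_zero, LinearMap.zero_apply]
  exact hv b ⟨hb, hc, hn⟩

omit [IsTopologicalGroup Γ] [CompactSpace Γ] in
theorem Zm_vec (hsemi : ρ.Semi) {z : Matrix I I F} (hz : z ∈ Zm ρ) (W : Submodule F (I → F))
    (hW : ∀ γ, ∀ y ∈ W, ρ.M γ *ᵥ y ∈ W) : ∀ y ∈ W, z *ᵥ y ∈ W := by
  intro y hy
  obtain ⟨K, hK, hc⟩ := hsemi W hW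
  obtain ⟨e, heC, he1, he2⟩ := exists_e ρ hW hK hc
  have h2 : z *ᵥ y = e *ᵥ (z *ᵥ y) := by
    rw [Matrix.mulVec_mulVec, ← hz.2.1 e heC, ← Matrix.mulVec_mulVec, he1 y hy]
  rw [h2]
  exact he2 _

omit [IsTopologicalGroup Γ] [CompactSpace Γ] in
private theorem MT_J (γ : Γ) : (ρ.M γ)ᵀ * ρ.J = (ρ.μ γ : F) • (ρ.J * ρ.M γ⁻¹) := by
  calc (ρ.M γ)ᵀ * ρ.J = (ρ.M γ)ᵀ * ρ.J * (ρ.M γ * ρ.M γ⁻¹) := by
        rw [M_mul_inv, mul_one]
    _ = ((ρ.M γ)ᵀ * ρ.J * ρ.M γ) * ρ.M γ⁻¹ := by simp only [mul_assoc]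
    _ = _ := by rw [ρ.eq γ, Matrix.smul_mul]

omit [IsTopologicalGroup Γ] [CompactSpace Γ] in
private theorem spJ_ad (γ : Γ) {X : Matrix I I F} (h1 : X ∈ spJ ρ.J) :
    ρ.M γ * X * ρ.M γ⁻¹ ∈ spJ ρ.J := by
  rw [mem_spJ] at h1 ⊢
  have e := ρ.eq γ
  have e1 := MT_J ρ γ
  have e2 : ρ.J * ρ.M γ = (ρ.μ γ : F) • ((ρ.M γ⁻¹)ᵀ * ρ.J) := by
    have e3 : (ρ.M γ⁻¹)ᵀ * (ρ.M γ)ᵀ = 1 := by
      rw [← Matrix.transpose_mul, M_mul_inv, Matrix.transpose_one]
    calc ρ.J * ρ.M γ = ((ρ.M γ⁻¹)ᵀ * (ρ.M γ)ᵀ) * (ρ.J * ρ.M γ) := by rw [e3, one_mul]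
      _ = (ρ.M γ⁻¹)ᵀ * ((ρ.M γ)ᵀ * ρ.J * ρ.M γ) := by simp only [mul_assoc]
      _ = _ := by rw [e, Matrix.mul_smul]
  have e4 : (ρ.M γ * X * ρ.M γ⁻¹)ᵀ * ρ.J =
      (ρ.μ γ : F) • ((ρ.M γ⁻¹)ᵀ * (Xᵀ * ρ.J) * ρ.M γ⁻¹) := by
    rw [Matrix.transpose_mul, Matrix.transpose_mul, mul_assoc, mul_assoc, e1,
      Matrix.mul_smul, Matrix.mul_smul]
    simp only [mul_assoc]
  have e5 : ρ.J * (ρ.M γ * X * ρ.M γ⁻¹) =
      (ρ.μ γ : F) • ((ρ.M γ⁻¹)ᵀ * (ρ.J * X) * ρ.M γ⁻¹) := by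
    rw [← mul_assoc, ← mul_assoc, e2, Matrix.smul_mul, Matrix.smul_mul]
    simp only [mul_assoc]
  rw [e4, e5, ← smul_add, ← add_mul, ← mul_add, h1, mul_zero, zero_mul, smul_zero]

omit [CompactSpace Γ] in
theorem Hp_ad (l : ℕ) (γ : Γ) {X : Matrix I I F} (hX : X ∈ Hp ρ l) :
    ρ.M γ * X * ρ.M γ⁻¹ ∈ Hp ρ l := by
  obtain ⟨a, ha, z, hz, rfl⟩ := Submodule.mem_sup.1 hX
  rw [Matrix.mul_add, Matrix.add_mul]
  refine Submodule.add_mem_sup (Hh_ad ρ l γ ha) ⟨inC_conj ρ hz.1 γ, ?_, spJ_ad ρ γ hz.2.2⟩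
  exact center_conj ρ hz.2.1 γ

theorem Hp_lie (l : ℕ) (hl : ‖(l : F)‖ < 1) (hl0 : (l : F) ≠ 0) {X Y : Matrix I I F}
    (hX : X ∈ Hp ρ l) (hY : Y ∈ Hp ρ l) : X * Y - Y * X ∈ Hp ρ l := by
  obtain ⟨a, ha, z, hz, rfl⟩ := Submodule.mem_sup.1 hX
  obtain ⟨b, hb, w, hw, rfl⟩ := Submodule.mem_sup.1 hY
  have h1 : a * w = w * a := Hh_comm_C ρ l hl hl0 ha hw.1
  have h2 : b * z = z * b := Hh_comm_C ρ l hl hl0 hb hz.1
  have h3 : z * w = w * z := hz.2.1 w hw.1
  have h4 : (a + z) * (b + w) - (b + w) * (a + z) = a * b - b * a := by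
    rw [Matrix.add_mul, Matrix.mul_add, Matrix.mul_add, Matrix.add_mul, Matrix.mul_add,
      Matrix.mul_add, h1, h2, h3]
    abel
  rw [h4]
  exact Submodule.mem_sup_left (Hh_lie ρ l hl hl0 ha hb)

/-- Central elements with vanishing traces of powers. -/
private theorem trace_zero {X : Matrix I I F}
    (hred : ∀ p : Polynomial F, IsNilpotent (Polynomial.aeval X p) → Polynomial.aeval X p = 0)
    (h : ∀ p : Polynomial F, (X * Polynomial.aeval X p).trace = 0) : X = 0 := by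
  have hint : IsIntegral F X := Algebra.IsIntegral.isIntegral X
  have hq0 : minpoly F X ≠ 0 := minpoly.ne_zero hint
  have hsq : Squarefree (minpoly F X) := by
    rintro x ⟨y, hy⟩
    have h1 : Polynomial.aeval X (x * y) = 0 := by
      refine hred _ ⟨2, ?_⟩
      have h2 : (x * y) ^ 2 = minpoly F X * y := by rw [hy]; ring
      rw [← map_pow, h2, map_mul, minpoly.aeval, zero_mul]
    have h3 : x * x * y ∣ x * y := by
      rw [← hy]; exact minpoly.dvd F X h1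
    have hxy : x * y ≠ 0 := by
      intro h
      apply hq0
      rw [hy, mul_assoc, h, mul_zero]
    obtain ⟨z, hz⟩ := h3
    have h4 : x * y * (x * z) = x * y * 1 := by
      rw [mul_one]; nth_rewrite 2 [hz]; ring
    exact IsUnit.of_mul_eq_one z (mul_left_cancel₀ hxy h4)
  -- a polynomial `e` divisible by `X` with `e(X) X = X`
  obtain ⟨r, hr⟩ : ∃ r : Polynomial F, X * (X * Polynomial.aeval X r) = X := by
    by_cases hd : (Polynomial.X : Polynomial F) ∣ minpoly F X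
    · obtain ⟨q, hq⟩ := hd
      have hco : IsCoprime (Polynomial.X : Polynomial F) q := by
        have h1 := hsq
        rw [hq] at h1
        exact (squarefree_mul_iff.1 h1).1.isCoprime
      obtain ⟨u, v, huv⟩ := hco
      refine ⟨u, ?_⟩
      have h2 := congrArg (fun p => Polynomial.aeval X (Polynomial.X * p)) huv
      simp only [mul_add, map_add, map_mul, Polynomial.aeval_X, mul_one] at h2
      have h3 : X * (Polynomial.aeval X v * Polynomial.aeval X q) = 0 := by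
        have h4 : X * (Polynomial.aeval X v * Polynomial.aeval X q) =
            Polynomial.aeval X (v * minpoly F X) := by
          rw [hq]
          simp only [map_mul, Polynomial.aeval_X]
          rw [← mul_assoc, ← mul_assoc]
          congr 1
          have h5 := congrArg (Polynomial.aeval X) (mul_comm (Polynomial.X : Polynomial F) v)
          simpa using h5
        rw [h4, map_mul, minpoly.aeval, mul_zero]
      rw [h3, add_zero] at h2
      have h6 : Polynomial.aeval X u * X = X * Polynomial.aeval X u := by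
        have h5 := congrArg (Polynomial.aeval X) (mul_comm (Polynomial.X : Polynomial F) u)
        simpa using h5.symm
      rwa [h6] at h2
    · have hco : IsCoprime (Polynomial.X : Polynomial F) (minpoly F X) :=
        (Polynomial.irreducible_X.coprime_iff_not_dvd).2 hd
      obtain ⟨u, v, huv⟩ := hco
      refine ⟨u, ?_⟩
      have h2 := congrArg (fun p => Polynomial.aeval X (Polynomial.X * p)) huv
      simp only [mul_add, map_add, map_mul, Polynomial.aeval_X, mul_one, minpoly.aeval, mul_zero,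
        add_zero] at h2
      have h6 : Polynomial.aeval X u * X = X * Polynomial.aeval X u := by
        have h5 := congrArg (Polynomial.aeval X) (mul_comm (Polynomial.X : Polynomial F) u)
        simpa using h5.symm
      rwa [h6] at h2
  set e : Matrix I I F := X * Polynomial.aeval X r with he
  have hcomm : Polynomial.aeval X r * X = X * Polynomial.aeval X r := by
    have h5 := congrArg (Polynomial.aeval X) (mul_comm (Polynomial.X : Polynomial F) r)
    simpa using h5.symm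
  have hee : e * e = e := by
    calc e * e = Polynomial.aeval X r * X * e := by rw [hcomm]
      _ = Polynomial.aeval X r * (X * e) := mul_assoc _ _ _
      _ = Polynomial.aeval X r * X := by rw [hr]
      _ = e := hcomm
  have htr : e.trace = 0 := h r
  have he0 : e = 0 := by
    have h1 : IsIdempotentElem (Matrix.toLin' e) :=
      (Matrix.toLin'_mul e e).symm.trans (by rw [hee])
    have h2 := LinearMap.IsIdempotentElem.eq_zero_of_trace_eq_zero h1 (by
      rw [Matrix.trace_toLin'_eq, htr])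
    exact (Matrix.toLin' : Matrix I I F ≃ₗ[F] _).injective (by rw [h2, map_zero])
  rw [← hr, he0, mul_zero]

/-- the adjoint for the form -/
private noncomputable def adj (J Y : Matrix I I F) : Matrix I I F := J⁻¹ * Yᵀ * J

omit [IsUltrametricDist F] [CompleteSpace F] [CharZero F] in
private theorem adj_add (J A B : Matrix I I F) : adj J (A + B) = adj J A + adj J B := by
  unfold adj
  rw [Matrix.transpose_add, Matrix.mul_add, Matrix.add_mul]

omit [IsUltrametricDist F] [CompleteSpace F] [CharZero F] in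
private theorem adj_sub (J A B : Matrix I I F) : adj J (A - B) = adj J A - adj J B := by
  unfold adj
  rw [Matrix.transpose_sub, Matrix.mul_sub, Matrix.sub_mul]

omit [IsUltrametricDist F] [CompleteSpace F] [CharZero F] in
private theorem adj_mul {J : Matrix I I F} (hJ : IsUnit J.det) (A B : Matrix I I F) :
    adj J (A * B) = adj J B * adj J A := by
  unfold adj
  rw [Matrix.transpose_mul]
  calc J⁻¹ * (Bᵀ * Aᵀ) * J = J⁻¹ * Bᵀ * (J * J⁻¹) * Aᵀ * J := by
        rw [Matrix.mul_nonsing_inv J hJ, Matrix.mul_one]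
        simp only [Matrix.mul_assoc]
    _ = _ := by simp only [Matrix.mul_assoc]

omit [IsUltrametricDist F] [CompleteSpace F] [CharZero F] in
private theorem adj_adj {J : Matrix I I F} (hJ : IsUnit J.det) (hs : Jᵀ = -J) (A : Matrix I I F) :
    adj J (adj J A) = A := by
  unfold adj
  have h1 : (J⁻¹)ᵀ * J = -1 := by
    have h2 : (J⁻¹)ᵀ * Jᵀ = 1 := by
      rw [← Matrix.transpose_mul, Matrix.mul_nonsing_inv J hJ, Matrix.transpose_one]
    rw [hs, Matrix.mul_neg] at h2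
    rw [← h2, neg_neg]
  rw [Matrix.transpose_mul, Matrix.transpose_mul, Matrix.transpose_transpose, hs]
  calc J⁻¹ * (-J * (A * (J⁻¹)ᵀ)) * J = -(J⁻¹ * J * A * ((J⁻¹)ᵀ * J)) := by
        simp only [Matrix.neg_mul, Matrix.mul_neg, Matrix.mul_assoc]
    _ = A := by
        rw [h1, Matrix.nonsing_inv_mul J hJ, Matrix.one_mul, Matrix.mul_neg, Matrix.mul_one,
          neg_neg]

omit [IsUltrametricDist F] [CompleteSpace F] [CharZero F] in
private theorem adj_trace {J : Matrix I I F} (hJ : IsUnit J.det) (A : Matrix I I F) :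
    (adj J A).trace = A.trace := by
  unfold adj
  rw [Matrix.trace_mul_comm, ← Matrix.mul_assoc, Matrix.mul_nonsing_inv J hJ, Matrix.one_mul,
    Matrix.trace_transpose]

omit [IsUltrametricDist F] [CompleteSpace F] [CharZero F] in
private theorem adj_spJ {J : Matrix I I F} (hJ : IsUnit J.det) {A : Matrix I I F} :
    A ∈ spJ J ↔ adj J A = -A := by
  rw [mem_spJ]
  unfold adj
  constructor
  · intro h
    rw [Matrix.mul_assoc, eq_neg_of_add_eq_zero_left h, Matrix.mul_neg, ← Matrix.mul_assoc,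
      Matrix.nonsing_inv_mul J hJ, Matrix.one_mul]
  · intro h
    have h1 := congrArg (fun Z => J * Z) h
    rw [Matrix.mul_assoc, ← Matrix.mul_assoc, Matrix.mul_nonsing_inv J hJ, Matrix.one_mul,
      Matrix.mul_neg] at h1
    rw [h1, neg_add_cancel]

omit [IsTopologicalGroup Γ] [CompactSpace Γ] in
private theorem adj_inC {c : Matrix I I F} (hc : ρ.InC c) : ρ.InC (adj ρ.J c) := by
  have hJ : IsUnit ρ.J.det := isUnit_iff_ne_zero.2 ρ.det
  obtain ⟨U, hU⟩ := hc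
  refine ⟨U, fun γ hγ => ?_⟩
  have hM : adj ρ.J (ρ.M γ) = (ρ.μ γ : F) • ρ.M γ⁻¹ := by
    unfold adj
    rw [Matrix.mul_assoc, MT_J, Matrix.mul_smul, ← Matrix.mul_assoc,
      Matrix.nonsing_inv_mul _ hJ, Matrix.one_mul]
  have h1 := congrArg (adj ρ.J) (hU γ hγ)
  rw [adj_mul hJ, adj_mul hJ, hM, Matrix.mul_smul, Matrix.smul_mul] at h1
  have h2 : adj ρ.J c * ρ.M γ⁻¹ = ρ.M γ⁻¹ * adj ρ.J c :=
    smul_right_injective _ (ρ.μ γ).ne_zero h1
  calc ρ.M γ * adj ρ.J c = ρ.M γ * (adj ρ.J c * ρ.M γ⁻¹) * ρ.M γ := by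
        rw [show ρ.M γ * (adj ρ.J c * ρ.M γ⁻¹) * ρ.M γ =
          ρ.M γ * adj ρ.J c * (ρ.M γ⁻¹ * ρ.M γ) by simp only [Matrix.mul_assoc], M_inv_mul,
          Matrix.mul_one]
    _ = ρ.M γ * ρ.M γ⁻¹ * adj ρ.J c * ρ.M γ := by
        rw [h2]
        simp only [Matrix.mul_assoc]
    _ = adj ρ.J c * ρ.M γ := by rw [M_mul_inv, Matrix.one_mul]

omit [IsTopologicalGroup Γ] [CompactSpace Γ] in
private theorem adj_central {c : Matrix I I F} (hc : ∀ d, ρ.InC d → c * d = d * c)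
    (d : Matrix I I F) (hd : ρ.InC d) : adj ρ.J c * d = d * adj ρ.J c := by
  have hJ : IsUnit ρ.J.det := isUnit_iff_ne_zero.2 ρ.det
  have h1 := congrArg (adj ρ.J) (hc _ (adj_inC ρ hd))
  rw [adj_mul hJ, adj_mul hJ, adj_adj hJ (J_skew ρ)] at h1
  exact h1.symm

theorem Hp_nondeg (l : ℕ) (hl : ‖(l : F)‖ < 1) (hl0 : (l : F) ≠ 0) (hsemi : ρ.Semi)
    (X : Matrix I I F) (hX : X ∈ Hp ρ l) (h0 : ∀ Y ∈ Hp ρ l, (X * Y).trace = 0) : X = 0 := by
  have hJ : IsUnit ρ.J.det := isUnit_iff_ne_zero.2 ρ.det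
  let R : Submodule F (Matrix I I F) :=
    { carrier := {X | X ∈ Hp ρ l ∧ ∀ Y ∈ Hp ρ l, (X * Y).trace = 0}
      zero_mem' := ⟨Submodule.zero_mem _, fun Y _ => by rw [Matrix.zero_mul, Matrix.trace_zero]⟩
      add_mem' := fun {X Y} hX hY => ⟨Submodule.add_mem _ hX.1 hY.1, fun Z hZ => by
        rw [Matrix.add_mul, Matrix.trace_add, hX.2 Z hZ, hY.2 Z hZ, add_zero]⟩
      smul_mem' := fun c X hX => ⟨Submodule.smul_mem _ c hX.1, fun Z hZ => by
        rw [Matrix.smul_mul, Matrix.trace_smul, hX.2 Z hZ, smul_zero]⟩ }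
  have hXR : X ∈ R := ⟨hX, h0⟩
  have hvec : ∀ X ∈ Hp ρ l, ∀ W : Submodule F (I → F), (∀ γ, ∀ y ∈ W, ρ.M γ *ᵥ y ∈ W) →
      ∀ y ∈ W, X *ᵥ y ∈ W := by
    intro X hX W hW y hy
    obtain ⟨a, ha, z, hz, rfl⟩ := Submodule.mem_sup.1 hX
    rw [Matrix.add_mulVec]
    exact W.add_mem (Hh_vec ρ l ha W hW hy) (Zm_vec ρ hsemi hz W hW y hy)
  -- 1. stability
  have hRad : ∀ γ, ∀ X ∈ R, ρ.M γ * X * ρ.M γ⁻¹ ∈ R := by
    intro γ X hX
    refine ⟨Hp_ad ρ l γ hX.1, fun Y hY => ?_⟩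
    have h1 := hX.2 _ (Hp_ad ρ l γ⁻¹ hY)
    rw [inv_inv] at h1
    have h2 : (ρ.M γ * X * ρ.M γ⁻¹ * Y).trace = (X * (ρ.M γ⁻¹ * Y * ρ.M γ)).trace := by
      rw [show ρ.M γ * X * ρ.M γ⁻¹ * Y = ρ.M γ * (X * (ρ.M γ⁻¹ * Y)) by
        simp only [Matrix.mul_assoc], Matrix.trace_mul_comm]
      simp only [Matrix.mul_assoc]
    rw [h2]
    exact h1
  have hRlie : ∀ X ∈ Hp ρ l, ∀ Y ∈ R, X * Y - Y * X ∈ R := by
    intro X hX Y hY
    refine ⟨Hp_lie ρ l hl hl0 hX hY.1, fun Z hZ => ?_⟩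
    have h1 := hY.2 _ (Hp_lie ρ l hl hl0 hZ hX)
    have h2 : ((X * Y - Y * X) * Z).trace = (Y * (Z * X - X * Z)).trace := by
      rw [Matrix.sub_mul, Matrix.mul_sub, Matrix.trace_sub, Matrix.trace_sub]
      congr 1
      · rw [Matrix.mul_assoc, Matrix.trace_mul_comm, Matrix.mul_assoc]
      · rw [Matrix.mul_assoc]
    rw [h2]
    exact h1
  -- 2. R is commutative
  have hcomm : ∀ X ∈ R, ∀ Y ∈ R, X * Y = Y * X := by
    have h1 := semi_all ρ hsemi {Z | ∃ X ∈ R, ∃ Y ∈ R, Z = X * Y - Y * X} (by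
      rintro γ _ ⟨X, hX, Y, hY, rfl⟩
      refine ⟨_, hRad γ X hX, _, hRad γ Y hY, ?_⟩
      have h2 : ∀ X Y : Matrix I I F, ρ.M γ * X * ρ.M γ⁻¹ * (ρ.M γ * Y * ρ.M γ⁻¹) =
          ρ.M γ * (X * Y) * ρ.M γ⁻¹ := by
        intro X Y
        calc ρ.M γ * X * ρ.M γ⁻¹ * (ρ.M γ * Y * ρ.M γ⁻¹) =
            ρ.M γ * X * (ρ.M γ⁻¹ * ρ.M γ) * Y * ρ.M γ⁻¹ := by simp only [Matrix.mul_assoc]
          _ = _ := by
            rw [M_inv_mul, Matrix.mul_one]
            simp only [Matrix.mul_assoc]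
      rw [h2, h2, Matrix.mul_sub, Matrix.sub_mul]) (by
      intro W hW hWs
      obtain ⟨v, hv, hv0, h2⟩ := exists_killed R (fun X hX Y hY => hRlie X hX.1 Y hY)
        (fun X hX Y hY => hX.2 Y hY.1) W hW (fun X hX y hy => hvec X hX.1 W hWs y hy)
      refine ⟨v, hv, hv0, ?_⟩
      rintro _ ⟨X, hX, Y, hY, rfl⟩
      exact h2 X hX Y hY)
    intro X hX Y hY
    exact sub_eq_zero.1 (h1 _ ⟨X, hX, Y, hY, rfl⟩)
  -- 3. the algebra generated by R
  let B : Subalgebra F (Matrix I I F) := Algebra.adjoin F (R : Set (Matrix I I F))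
  have hBc : ∀ X ∈ B, ∀ Y ∈ B, X * Y = Y * X := by
    intro X hX Y hY
    exact Algebra.commute_of_mem_adjoin_of_forall_mem_commute hY fun Z hZ =>
      (Algebra.commute_of_mem_adjoin_of_forall_mem_commute hX fun Z' hZ' =>
        hcomm Z hZ Z' hZ').symm
  have hBad : ∀ γ, ∀ X ∈ B, ρ.M γ * X * ρ.M γ⁻¹ ∈ B := by
    intro γ X hX
    refine Algebra.adjoin_induction (p := fun X _ => ρ.M γ * X * ρ.M γ⁻¹ ∈ B) ?_ ?_ ?_ ?_ hX
    · intro X hX
      exact Algebra.subset_adjoin (hRad γ X hX)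
    · intro c
      rw [Algebra.algebraMap_eq_smul_one, Matrix.mul_smul, Matrix.smul_mul, Matrix.mul_one,
        M_mul_inv]
      exact B.smul_mem B.one_mem c
    · intro X Y _ _ hX hY
      rw [Matrix.mul_add, Matrix.add_mul]
      exact B.add_mem hX hY
    · intro X Y _ _ hX hY
      have h2 : ρ.M γ * (X * Y) * ρ.M γ⁻¹ = ρ.M γ * X * ρ.M γ⁻¹ * (ρ.M γ * Y * ρ.M γ⁻¹) := by
        calc ρ.M γ * (X * Y) * ρ.M γ⁻¹ = ρ.M γ * X * (ρ.M γ⁻¹ * ρ.M γ) * Y * ρ.M γ⁻¹ := by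
              rw [M_inv_mul, Matrix.mul_one]
              simp only [Matrix.mul_assoc]
          _ = _ := by simp only [Matrix.mul_assoc]
      rw [h2]
      exact B.mul_mem hX hY
  have hBW : ∀ X ∈ B, ∀ W : Submodule F (I → F), (∀ γ, ∀ y ∈ W, ρ.M γ *ᵥ y ∈ W) →
      ∀ y ∈ W, X *ᵥ y ∈ W := by
    intro X hX W hW
    refine Algebra.adjoin_induction (p := fun X _ => ∀ y ∈ W, X *ᵥ y ∈ W) ?_ ?_ ?_ ?_ hX
    · intro X hX y hy
      exact hvec X hX.1 W hW y hy
    · intro c y hy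
      rw [Algebra.algebraMap_eq_smul_one, Matrix.smul_mulVec, Matrix.one_mulVec]
      exact W.smul_mem c hy
    · intro X Y _ _ hX hY y hy
      rw [Matrix.add_mulVec]
      exact W.add_mem (hX y hy) (hY y hy)
    · intro X Y _ _ hX hY y hy
      rw [← Matrix.mulVec_mulVec]
      exact hX _ (hY y hy)
  have hred : ∀ X ∈ B, IsNilpotent X → X = 0 := by
    have h1 := semi_all ρ hsemi {Z | Z ∈ B ∧ IsNilpotent Z} (by
      rintro γ Z ⟨hZ, m, hm⟩
      exact ⟨hBad γ Z hZ, m, by rw [conj_pow, hm, Matrix.mul_zero, Matrix.zero_mul]⟩) (by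
      intro W hW hWs
      let N : Submodule F (Matrix I I F) :=
        { carrier := {Z | Z ∈ B ∧ IsNilpotent Z}
          zero_mem' := ⟨B.zero_mem, IsNilpotent.zero⟩
          add_mem' := fun {X Y} hX hY => ⟨B.add_mem hX.1 hY.1,
            Commute.isNilpotent_add (hBc _ hX.1 _ hY.1) hX.2 hY.2⟩
          smul_mem' := fun c X hX => ⟨B.smul_mem hX.1 c, hX.2.smul c⟩ }
      exact exists_common N (fun X hX Y hY => hBc X hX.1 Y hY.1) (fun X hX => hX.2) W hW
        (fun X hX y hy => hBW X hX.1 W hWs y hy))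
    intro X hX hn
    exact h1 X ⟨hX, hn⟩
  -- 4. all elements of B commute with an open subgroup
  obtain ⟨U, hU⟩ := comm_small ρ l hl hl0
  have hBC : ∀ b ∈ B, ρ.InC b := by
    intro b hb
    refine ⟨U, fun γ hγ => ?_⟩
    obtain ⟨D, hD, h1⟩ := hU γ hγ
    have hD' : D ∈ Hp ρ l := Submodule.mem_sup_left hD
    refine h1 b (deriv_zero B hBc hred D ?_ b hb)
    intro b hb
    refine Algebra.adjoin_induction (p := fun X _ => D * X - X * D ∈ B) ?_ ?_ ?_ ?_ hb
    · intro X hX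
      exact Algebra.subset_adjoin (hRlie D hD' X hX)
    · intro c
      rw [Algebra.algebraMap_eq_smul_one, Matrix.mul_smul, Matrix.smul_mul, Matrix.mul_one,
        Matrix.one_mul, sub_self]
      exact B.zero_mem
    · intro X Y _ _ hX hY
      rw [Matrix.mul_add, Matrix.add_mul, show D * X + D * Y - (X * D + Y * D) =
        (D * X - X * D) + (D * Y - Y * D) by abel]
      exact B.add_mem hX hY
    · intro X Y hX' hY' hX hY
      have h2 : D * (X * Y) - X * Y * D = (D * X - X * D) * Y + X * (D * Y - Y * D) := by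
        rw [Matrix.sub_mul, Matrix.mul_sub]
        simp only [Matrix.mul_assoc]
        abel
      rw [h2]
      exact B.add_mem (B.mul_mem hX hY') (B.mul_mem hX' hY)
  -- 5. elements of `R` are central
  have hRc : ∀ Y ∈ R, ∀ c, ρ.InC c → Y * c = c * Y := by
    intro Y hY c hc
    obtain ⟨a, ha, z, hz, rfl⟩ := Submodule.mem_sup.1 hY.1
    rw [Matrix.add_mul, Matrix.mul_add, Hh_comm_C ρ l hl hl0 ha hc, hz.2.1 c hc]
  have hBcen : ∀ Y ∈ B, ∀ c, ρ.InC c → Y * c = c * Y := by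
    intro Y hY c hc
    exact (Algebra.commute_of_mem_adjoin_of_forall_mem_commute hY fun Z hZ =>
      (hRc Z hZ c hc).symm).symm
  have hXs : X ∈ spJ ρ.J := by
    obtain ⟨a, ha, z, hz, rfl⟩ := Submodule.mem_sup.1 hX
    exact (spJ ρ.J).add_mem ha.1 hz.2.2
  have hXa : adj ρ.J X = -X := (adj_spJ hJ).1 hXs
  have htr : ∀ Y, ρ.InC Y → (∀ c, ρ.InC c → Y * c = c * Y) → (X * Y).trace = 0 := by
    intro Y hY hYc
    have hm : Y - adj ρ.J Y ∈ Hp ρ l := by
      refine Submodule.mem_sup_right ⟨?_, ?_, ?_⟩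
      · have h1 := inC_add ρ hY (inC_smul ρ (-1) (adj_inC ρ hY))
        rwa [neg_one_smul, ← sub_eq_add_neg] at h1
      · intro c hc
        rw [Matrix.sub_mul, Matrix.mul_sub, hYc c hc, adj_central ρ hYc c hc]
      · rw [adj_spJ hJ, adj_sub, adj_adj hJ (J_skew ρ), neg_sub]
    have h1 := h0 _ hm
    have h2 : (X * (Y + adj ρ.J Y)).trace = -(X * (Y + adj ρ.J Y)).trace := by
      calc (X * (Y + adj ρ.J Y)).trace = (adj ρ.J (X * (Y + adj ρ.J Y))).trace :=
            (adj_trace hJ _).symm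
        _ = ((adj ρ.J Y + Y) * (-X)).trace := by
            rw [adj_mul hJ, adj_add, adj_adj hJ (J_skew ρ), hXa]
        _ = -(X * (Y + adj ρ.J Y)).trace := by
            rw [Matrix.mul_neg, Matrix.trace_neg, Matrix.trace_mul_comm, add_comm]
    have h3 : (X * (Y + adj ρ.J Y)).trace = 0 := self_eq_neg.1 h2
    rw [Matrix.mul_sub, Matrix.trace_sub] at h1
    rw [Matrix.mul_add, Matrix.trace_add] at h3
    have h4 : (2 : F) * (X * Y).trace = 0 := by linear_combination h1 + h3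
    exact (mul_eq_zero.1 h4).resolve_left two_ne_zero
  have hmemB : ∀ p : Polynomial F, Polynomial.aeval X p ∈ B := fun p =>
    Algebra.adjoin_le (Set.singleton_subset_iff.2 (Algebra.subset_adjoin hXR))
      (Polynomial.aeval_mem_adjoin_singleton F X)
  exact trace_zero (fun p hp => hred _ (hmemB p) hp)
    fun p => htr _ (hBC _ (hmemB p)) (hBcen _ (hmemB p))

end Pool.Agent.Lib.MP_640417_ag.Ctl
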