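import Pool.Agent.Lib.MP_640417_ag.Ctl.Tate
import Pool.Agent.Lib.MP_640417_ag.Ctl.Plus
import Pool.Agent.Lib.MP_640417_ag.Glob.Proj

/-!
# MP_640417_ag, Ctl, module Kill (130 lines): what kills the Tate classes of codimension two on V^4

Let `X ∈ spJ` kill all Tate classes of codimension 2 on `V^4` which are killed by `Zm`.
1. `X` commutes with the commutant: for `c` in the commutant (commuting with `M γ`, `γ ∈ U`) let `Q Y = tr (Y) c`; it satisfies the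
   hypothesis of `tate_Q`, and `emb (tQ J Q)` is killed by `z ∈ Zm` (`der_of_comm`: both sides are zero). By `comm_of_der` `X Q(Y) - Q(Y) X = Q([X, Y]) = 0` (trace of a commutator), take `Y` with
   trace 1 (if `I` is empty everything is trivial).
2. Let `p` be the projection onto `Hp` of `exists_proj` (`Hp_nondeg`). It commutes with the conjugation by all `M γ` (`Hp_ad`
   for `γ`, `γ⁻¹`), so `emb (tQ J p)` is a Tate class (`tate_Q`). It is killed by `z ∈ Zm` (`der_of_comm`, `[z, p Y] = p [z, Y]`: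
   `Hp` and its orthogonal complement for the trace form are stable under `[z, .]`, by `Hp_lie`). By `comm_of_der` `[X, p Y] = p [X, Y]`. So `[X, Y] ∈ Hp` for
   `Y ∈ Hp`.
3. `X1 = X - p X ∈ spJ`; for `Y, Z ∈ Hp`: `[X1, Y] ∈ Hp` and `tr ([X1, Y] Z) = tr (X1 [Y, Z]) = 0`, so `[X1, Y] = 0`. So `X1` commutes
   with `Hh`, so it is in the commutant (`comm_open`); it commutes with the commutant (1. and `Hh_comm_C`, definition of `Zm`, for
   `p X ∈ Hp`). So `X1 ∈ Zm ⊆ Hp`, `X1 = p X1 = p X - p (p X) = 0`, `X = p X ∈ Hp`.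
-/

set_option autoImplicit false

namespace Pool.Agent.Lib.MP_640417_ag.Ctl

open Filter Topology Matrix Pool.Agent.Lib.MP_640417_ag Pool.Agent.Lib.MP_640417_ag.Glob
  Pool.Agent.Lib.MP_640417_ag.Four

variable {F : Type} [NontriviallyNormedField F] [IsUltrametricDist F] [CompleteSpace F] [CharZero F]
  {I : Type} [Fintype I] [DecidableEq I] {Γ : Type} [Group Γ] [TopologicalSpace Γ]
  [IsTopologicalGroup Γ] [CompactSpace Γ] (ρ : MRep Γ F I)

omit [IsTopologicalGroup Γ] [CompactSpace Γ] [IsUltrametricDist F] [CompleteSpace F] [CharZero F] in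
/-- the operator `Y ↦ tr (Y) c` -/
private theorem exists_Q (c : Matrix I I F) :
    ∃ Q : Matrix I I F →ₗ[F] Matrix I I F, ∀ Y, Q Y = Y.trace • c :=
  ⟨{ toFun := fun Y => Y.trace • c
     map_add' := fun A B => by rw [Matrix.trace_add, add_smul]
     map_smul' := fun s A => by rw [Matrix.trace_smul, RingHom.id_apply, smul_assoc] },
    fun Y => rfl⟩

theorem mem_Hp_of_Q (l : ℕ) (hl : ‖(l : F)‖ < 1) (hl0 : (l : F) ≠ 0) (hsemi : ρ.Semi)
    (X : Matrix I I F) (hX : X ∈ spJ ρ.J)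
    (h4 : ∀ Q : Matrix I I F →ₗ[F] Matrix I I F,
      (∃ U : OpenSubgroup Γ, ∀ γ ∈ U, ∀ Y,
        Q (ρ.M γ * Y * ρ.M γ⁻¹) = ρ.M γ * Q Y * ρ.M γ⁻¹) →
      (∀ z ∈ Zm ρ, ∀ Y, z * Q Y - Q Y * z = Q (z * Y - Y * z)) →
      ∀ Y, X * Q Y - Q Y * X = Q (X * Y - Y * X)) : X ∈ Hp ρ l := by
  -- 1. `X` commutes with the commutant
  have hXc : ∀ c, ρ.InC c → X * c = c * X := by
    intro c hc
    obtain ⟨Q, hQ⟩ := exists_Q c
    obtain ⟨U, hU⟩ := hc
    have h1 : ∀ A B : Matrix I I F, (A * B - B * A).trace = 0 := by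
      intro A B
      rw [Matrix.trace_sub, Matrix.trace_mul_comm, sub_self]
    have hcd := h4 Q ⟨U, by
      intro γ hγ Y
      rw [hQ, hQ, Matrix.mul_smul, Matrix.smul_mul, hU γ hγ, Matrix.mul_assoc c, M_mul_inv,
        Matrix.mul_one, Matrix.trace_mul_comm, ← Matrix.mul_assoc, M_inv_mul, Matrix.one_mul]⟩ (by
      intro z hz Y
      rw [hQ, hQ, h1, zero_smul, Matrix.mul_smul, Matrix.smul_mul, hz.2.1 c ⟨U, hU⟩, sub_self])
    rcases isEmpty_or_nonempty I with hI | ⟨⟨i⟩⟩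
    · ext i
      exact (hI.false i).elim
    · have h2 := hcd (Matrix.single i i 1)
      rw [hQ, hQ, h1, zero_smul, Matrix.trace_single_eq_same, one_smul, sub_eq_zero] at h2
      exact h2
  -- 2. the projection
  obtain ⟨p, p1, p2, p3, p4⟩ := exists_proj (Hp ρ l) (fun X hX h0 =>
    Hp_nondeg ρ l hl hl0 hsemi X hX h0)
  have hZH : ∀ z ∈ Zm ρ, z ∈ Hp ρ l := fun z hz => Submodule.mem_sup_right hz
  have hlie : ∀ A ∈ Hp ρ l, ∀ B ∈ Hp ρ l, A * B - B * A ∈ Hp ρ l := fun A hA B hB =>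
    Hp_lie ρ l hl hl0 hA hB
  have htr : ∀ A B C : Matrix I I F, ((A * B - B * A) * C).trace = (B * (C * A - A * C)).trace := by
    intro A B C
    rw [Matrix.sub_mul, Matrix.mul_sub, Matrix.trace_sub, Matrix.trace_sub]
    congr 1
    · rw [Matrix.mul_assoc, Matrix.trace_mul_comm, Matrix.mul_assoc]
    · rw [Matrix.mul_assoc]
  have htr2 : ∀ A B C : Matrix I I F,
      ((A * B - B * A) * C).trace = (A * (B * C - C * B)).trace := by
    intro A B C
    rw [Matrix.sub_mul, Matrix.mul_sub, Matrix.trace_sub, Matrix.trace_sub]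
    congr 1
    · rw [Matrix.mul_assoc]
    · rw [Matrix.mul_assoc, Matrix.trace_mul_comm, Matrix.mul_assoc]
  have hpz : ∀ z ∈ Zm ρ, ∀ Y, z * p Y - p Y * z = p (z * Y - Y * z) := by
    intro z hz Y
    refine sub_eq_zero.1 (Hp_nondeg ρ l hl hl0 hsemi _
      ((Hp ρ l).sub_mem (hlie z (hZH z hz) _ (p1 Y)) (p1 _)) fun W hW => ?_)
    rw [Matrix.sub_mul, Matrix.trace_sub, p3 _ W hW, htr, htr,
      p3 _ _ (hlie W hW z (hZH z hz)), sub_self]
  have hcd := h4 p ⟨⊤, by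
    intro γ _ Y
    refine p4 (ρ.M γ) (ρ.M γ⁻¹) (M_mul_inv ρ γ) (M_inv_mul ρ γ) ?_ ?_ Y
    · intro X hX
      exact Hp_ad ρ l γ hX
    · intro X hX
      have h := Hp_ad ρ l γ⁻¹ hX
      rwa [inv_inv] at h⟩ hpz
  have hXY : ∀ Y ∈ Hp ρ l, X * Y - Y * X ∈ Hp ρ l := by
    intro Y hY
    have h1 := hcd Y
    rw [p2 Y hY] at h1
    rw [h1]
    exact p1 _
  -- 3. the difference
  have hHs : ∀ Y ∈ Hp ρ l, Y ∈ spJ ρ.J := by
    intro Y hY
    obtain ⟨a, ha, z, hz, rfl⟩ := Submodule.mem_sup.1 hY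
    exact (spJ ρ.J).add_mem ha.1 hz.2.2
  have hHc : ∀ Y ∈ Hp ρ l, ∀ c, ρ.InC c → Y * c = c * Y := by
    intro Y hY c hc
    obtain ⟨a, ha, z, hz, rfl⟩ := Submodule.mem_sup.1 hY
    rw [Matrix.add_mul, Matrix.mul_add, Hh_comm_C ρ l hl hl0 ha hc, hz.2.1 c hc]
  have hcomm : ∀ Y ∈ Hp ρ l, (X - p X) * Y = Y * (X - p X) := by
    intro Y hY
    refine sub_eq_zero.1 (Hp_nondeg ρ l hl hl0 hsemi _ ?_ fun Z hZ => ?_)
    · have h1 := (Hp ρ l).sub_mem (hXY Y hY) (hlie _ (p1 X) Y hY)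
      have h2 : (X - p X) * Y - Y * (X - p X) = X * Y - Y * X - (p X * Y - Y * p X) := by
        rw [Matrix.sub_mul, Matrix.mul_sub]
        abel
      rwa [h2]
    · have h1 : (((X - p X) * Y - Y * (X - p X)) * Z).trace =
          ((X - p X) * (Y * Z - Z * Y)).trace := htr2 _ _ _
      rw [h1, Matrix.sub_mul, Matrix.trace_sub, p3 X _ (hlie Y hY Z hZ), sub_self]
  have hmem : X - p X ∈ Zm ρ := by
    refine ⟨?_, ?_, ?_⟩
    · obtain ⟨U, hU⟩ := comm_open ρ l hl hl0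
      exact ⟨U, hU _ fun Y hY => (hcomm Y (Submodule.mem_sup_left hY)).symm⟩
    · intro c hc
      rw [Matrix.sub_mul, Matrix.mul_sub, hXc c hc, hHc _ (p1 X) c hc]
    · exact (spJ ρ.J).sub_mem hX (hHs _ (p1 X))
  have h1 := p2 _ (hZH _ hmem)
  rw [map_sub, p2 _ (p1 X), sub_self] at h1
  rw [sub_eq_zero.1 h1.symm]
  exact p1 X

theorem mem_Hp (l : ℕ) (hl : ‖(l : F)‖ < 1) (hl0 : (l : F) ≠ 0) (hsemi : ρ.Semi)
    (X : Matrix I I F) (hX : X ∈ spJ ρ.J)
    (h4 : ∀ x : ExteriorAlgebra F (Fin 4 → I → F), TateClass (ρ.act 4) ρ.μ⁻¹ 2 x →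
      (∀ z ∈ Zm ρ, Dv 4 (Matrix.toLin' z) x = 0) → Dv 4 (Matrix.toLin' X) x = 0) : X ∈ Hp ρ l := by
  refine mem_Hp_of_Q ρ l hl hl0 hsemi X hX ?_
  rintro Q ⟨U, hU⟩ hz
  exact comm_of_der ρ.J ρ.det Q X hX (h4 _ (tate_Q ρ Q U hU)
    fun z hz' => der_of_comm ρ.J ρ.det Q z hz'.2.2 (hz z hz'))

end Pool.Agent.Lib.MP_640417_ag.Ctl
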