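import Pool.Agent.Lib.MP_640417_ag.Four.Der
import Pool.Agent.Lib.MP_640417_ag.Glob.TanH
import Pool.Agent.Lib.MP_640417_ag.Glob.Lim
import Pool.Agent.Lib.MP_640417_ag.CMRep

/-!
# MP_640417_ag, Ctl, module Tang (200 lines): tangent vectors kill the Tate classes

Let `W = Fin n → I → F` and `E` its exterior algebra, a finite dimensional space (`Module.Finite`; if there is no instance work
in the finite dimensional subspace `⋀[F]^m W`, or use `ExteriorAlgebra` finiteness via the surjection from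
finitely many products). For a sequence `x_k` in `E` write `x_k ⟶ x` if `φ (x_k) → φ (x)` for all linear functionals `φ`
(equivalently all coordinates converge). Facts: sums, scalar multiples with convergent scalars, products (`x_k y_k ⟶ x y`:
expand `x_k` in a basis), images under linear maps; `ι (w_k) ⟶ ι (w)` if `w_k → w`.
* `lim_der`: `B_k → B` matrices, `r_k → 0`, `r_k ≠ 0`: `r_k⁻¹ (map (1 + r_k B_k) x - x) ⟶ Dv n B x` for every `x`: by
  `CliffordAlgebra.left_induction` on `x`: scalars: `0`; sums; for `ι w * x`: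
  `map (1 + r B) (ι w x) = (ι w + r ι (B w)) (x + (map (1 + r B) x - x))`, so the quotient is
  `ι (B w) map (1 + r B) x + ι w r⁻¹ (map (1 + r B) x - x)`, limit `ι (B w) x + ι w Dv x` (`isDer_Dv`).
* `zt_tate`: let `A ∈ Zt` with `Aᵀ J + J A = t J`, `x` a Tate class of codimension `i`: there are (`Zt_open`) `m > 0` and `γ_k ∈ U` with
  `l^(-k) (M γ_k - 1) → m A`. `map (M γ_k) x = (μ γ_k)^i x` and `l^(-k) (μ γ_k - 1) → m t` (from
  `M γ_kᵀ J M γ_k = μ J`, see `lim_mult` in `Glob/Lim.lean`), so `l^(-k) ((μ γ_k)^i - 1) → i m t`, so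
  `Dv n (m A) x = (i m t) x`, divide by `m`.
* `dv_one`: `Dv n 1 x = (2 i) x` for `x ∈ ⋀^(2i)` (a derivation which is the identity on `W`: induction on products of vectors,
  `Submodule.pow_induction_on_left'` or similar).
* `hh_tate`: `X ∈ Hh`: `X + s = ∑ c_j A_j`, `A_j ∈ Zt` with multipliers `t_j`; `Xᵀ J + J X = 0` gives `2 s = ∑ c_j t_j`
  (`J ≠ 0`), so `Dv n X x = (∑ c_j i t_j - 2 i s) x = 0`.
-/

set_option autoImplicit false

namespace Pool.Agent.Lib.MP_640417_ag.Ctl

open Filter Topology Matrix Pool.Agent.Lib.MP_640417_ag Pool.Agent.Lib.MP_640417_ag.Glob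
  Pool.Agent.Lib.MP_640417_ag.Four

variable {F : Type} [NontriviallyNormedField F] [IsUltrametricDist F] [CompleteSpace F] [CharZero F]
  {I : Type} [Fintype I] [DecidableEq I] {Γ : Type} [Group Γ] [TopologicalSpace Γ]
  [IsTopologicalGroup Γ] [CompactSpace Γ] (ρ : MRep Γ F I)

theorem dv_one (n m : ℕ) (x : ExteriorAlgebra F (Fin n → I → F))
    (hx : x ∈ ⋀[F]^m (Fin n → I → F)) : Dv n (1 : Module.End F (I → F)) x = (m : F) • x := by
  have hD := isDer_Dv n (1 : Module.End F (I → F))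
  refine Submodule.pow_induction_on_left' (LinearMap.range (ExteriorAlgebra.ι F))
    (C := fun m x _ => Dv n (1 : Module.End F (I → F)) x = (m : F) • x) ?_ ?_ ?_ hx
  · intro r
    rw [hD.1, Nat.cast_zero, zero_smul]
  · intro y z i _ _ hy hz
    rw [map_add, hy, hz, smul_add]
  · rintro _ ⟨w, rfl⟩ i y _ hy
    have h1 : (1 : Module.End F (I → F)).compLeft (Fin n) w = w := rfl
    rw [hD.2, hy, h1, mul_smul_comm, Nat.cast_succ, add_smul, one_smul, add_comm]

section cv

variable {E E' : Type} [AddCommGroup E] [Module F E] [AddCommGroup E'] [Module F E']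

/-- Weak convergence. -/
private def Cv (x : ℕ → E) (y : E) : Prop :=
  ∀ φ : E →ₗ[F] F, Tendsto (fun k => φ (x k)) atTop (𝓝 (φ y))

omit [IsUltrametricDist F] [CompleteSpace F] [CharZero F]

private theorem cv_add {x x' : ℕ → E} {y y' : E} (h : Cv (F := F) x y) (h' : Cv (F := F) x' y') :
    Cv (F := F) (fun k => x k + x' k) (y + y') := fun φ => by
  simp only [map_add]
  exact (h φ).add (h' φ)

private theorem cv_smul {x : ℕ → E} {y : E} {c : ℕ → F} {d : F} (hc : Tendsto c atTop (𝓝 d))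
    (h : Cv (F := F) x y) : Cv (F := F) (fun k => c k • x k) (d • y) := fun φ => by
  simp only [map_smul, smul_eq_mul]
  exact hc.mul (h φ)

private theorem cv_map {x : ℕ → E} {y : E} (T : E →ₗ[F] E') (h : Cv (F := F) x y) :
    Cv (F := F) (fun k => T (x k)) (T y) := fun φ => h (φ ∘ₗ T)

private theorem cv_const (y : E) : Cv (F := F) (fun _ => y) y := fun _ => tendsto_const_nhds

private theorem cv_unique {x : ℕ → E} {y y' : E} (h : Cv (F := F) x y) (h' : Cv (F := F) x y') :
    y = y' := by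
  refine sub_eq_zero.mp ((Module.forall_dual_apply_eq_zero_iff F (y - y')).mp fun φ => ?_)
  rw [map_sub, tendsto_nhds_unique (h φ) (h' φ), sub_self]

private theorem cv_sum {κ : Type} (s : Finset κ) {x : κ → ℕ → E} {y : κ → E}
    (h : ∀ i ∈ s, Cv (F := F) (x i) (y i)) :
    Cv (F := F) (fun k => ∑ i ∈ s, x i k) (∑ i ∈ s, y i) := fun φ => by
  simp only [map_sum]
  exact tendsto_finsetSum _ fun i hi => h i hi φ

private theorem cv_congr {x x' : ℕ → E} {y : E} (h : Cv (F := F) x y) (he : ∀ k, x k = x' k) :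
    Cv (F := F) x' y := by
  have : x = x' := funext he
  rwa [← this]

end cv

omit [IsUltrametricDist F] [CompleteSpace F] [CharZero F] in
private theorem iota_expand (n : ℕ) (u : Fin n → I → F) (x : ExteriorAlgebra F (Fin n → I → F)) :
    ExteriorAlgebra.ι F u * x = ∑ a, ∑ i, u a i •
      (ExteriorAlgebra.ι F (Pi.single a (Pi.single i 1) : Fin n → I → F) * x) := by
  have h1 : u = ∑ a, ∑ i, u a i • (Pi.single a (Pi.single i 1) : Fin n → I → F) := by
    funext b j
    simp only [Finset.sum_apply, Pi.smul_apply, smul_eq_mul]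
    rw [Finset.sum_eq_single b]
    · rw [Finset.sum_eq_single j]
      · simp
      · intro i _ hi
        simp [Pi.single_apply, hi.symm]
      · intro h
        exact absurd (Finset.mem_univ _) h
    · intro a _ ha
      refine Finset.sum_eq_zero fun i _ => ?_
      rw [Pi.single_eq_of_ne ha.symm]
      simp
    · intro h
      exact absurd (Finset.mem_univ _) h
  conv_lhs => rw [h1]
  simp only [map_sum, map_smul, Finset.sum_mul, smul_mul_assoc]

omit [IsUltrametricDist F] [CompleteSpace F] [CharZero F] in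
private theorem cv_iota_mul {n : ℕ} {w : ℕ → Fin n → I → F} {v : Fin n → I → F}
    (hw : ∀ a i, Tendsto (fun k => w k a i) atTop (𝓝 (v a i)))
    {s : ℕ → ExteriorAlgebra F (Fin n → I → F)} {t : ExteriorAlgebra F (Fin n → I → F)}
    (hs : Cv (F := F) s t) :
    Cv (F := F) (fun k => ExteriorAlgebra.ι F (w k) * s k) (ExteriorAlgebra.ι F v * t) := by
  have e : (fun k => ExteriorAlgebra.ι F (w k) * s k) = fun k => ∑ a, ∑ i, w k a i •
      (ExteriorAlgebra.ι F (Pi.single a (Pi.single i 1) : Fin n → I → F) * s k) :=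
    funext fun k => iota_expand n _ _
  rw [e, iota_expand n v t]
  refine cv_sum _ fun a _ => cv_sum _ fun i _ => cv_smul (hw a i) ?_
  exact cv_map (LinearMap.mulLeft F
    (ExteriorAlgebra.ι F (Pi.single a (Pi.single i 1) : Fin n → I → F))) hs

omit [IsUltrametricDist F] [CompleteSpace F] [CharZero F] in
private theorem lim_der (n : ℕ) (b : ℕ → Matrix I I F) (c : ℕ → F) (hc : Tendsto c atTop (𝓝 0))
    (hc0 : ∀ j, c j ≠ 0) (A : Matrix I I F)
    (h : Tendsto (fun j => (c j)⁻¹ • (b j - 1)) atTop (𝓝 A))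
    (x : ExteriorAlgebra F (Fin n → I → F)) :
    Cv (F := F) (fun k => (c k)⁻¹ •
      (ExteriorAlgebra.map ((Matrix.toLin' (b k)).compLeft (Fin n)) x - x))
      (Dv n (Matrix.toLin' A) x) := by
  have hD := isDer_Dv n (Matrix.toLin' A)
  induction x using CliffordAlgebra.left_induction with
  | algebraMap r =>
    have h1 := hD.1 r
    have h2 : ∀ k, ExteriorAlgebra.map ((Matrix.toLin' (b k)).compLeft (Fin n))
        (algebraMap F (ExteriorAlgebra F (Fin n → I → F)) r) = algebraMap F _ r :=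
      fun k => AlgHom.commutes _ _
    refine cv_congr (x := fun _ => 0) ?_ fun k => ?_
    · erw [h1]
      exact cv_const 0
    · erw [h2 k]
      rw [sub_self, smul_zero]
  | add x y hx hy =>
    rw [map_add]
    refine cv_congr (cv_add hx hy) fun k => ?_
    rw [map_add, ← smul_add]
    congr 1
    abel
  | ι_mul x m hx =>
    change Cv (F := F) (fun k => (c k)⁻¹ •
      (ExteriorAlgebra.map ((Matrix.toLin' (b k)).compLeft (Fin n)) (ExteriorAlgebra.ι F m * x) -
        ExteriorAlgebra.ι F m * x)) (Dv n (Matrix.toLin' A) (ExteriorAlgebra.ι F m * x))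
    rw [hD.2 m x]
    have h1 : Cv (F := F) (fun k =>
        ExteriorAlgebra.map ((Matrix.toLin' (b k)).compLeft (Fin n)) x) x := by
      have h2 := cv_add (cv_smul hc hx) (cv_const x)
      rw [zero_smul, zero_add] at h2
      refine cv_congr h2 fun k => ?_
      rw [smul_smul, mul_inv_cancel₀ (hc0 k), one_smul, sub_add_cancel]
    have h2 : ∀ a i, Tendsto (fun k => ((c k)⁻¹ • ((Matrix.toLin' (b k)).compLeft (Fin n) m - m))
        a i) atTop (𝓝 ((Matrix.toLin' A).compLeft (Fin n) m a i)) := by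
      intro a i
      have h3 : Tendsto (fun k => ((c k)⁻¹ • (b k - 1)) *ᵥ (m a)) atTop (𝓝 (A *ᵥ (m a))) :=
        ((continuous_id.matrix_mulVec continuous_const).tendsto A).comp h
      have h4 := (tendsto_pi_nhds.mp h3) i
      have h5 : (Matrix.toLin' A).compLeft (Fin n) m a i = (A *ᵥ (m a)) i := rfl
      rw [h5]
      refine h4.congr fun k => ?_
      have h6 : (Matrix.toLin' (b k)).compLeft (Fin n) m a = (b k) *ᵥ (m a) := rfl
      rw [Pi.smul_apply, Pi.smul_apply, Pi.sub_apply, h6, Matrix.smul_mulVec, Matrix.sub_mulVec,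
        Matrix.one_mulVec, Pi.smul_apply]
    have h3 := cv_add (cv_iota_mul h2 h1)
      (cv_map (LinearMap.mulLeft F (ExteriorAlgebra.ι F m)) hx)
    refine cv_congr h3 fun k => ?_
    rw [map_mul, ExteriorAlgebra.map_apply_ι, map_smul, map_sub, smul_mul_assoc, sub_mul,
      LinearMap.mulLeft_apply, mul_smul_comm, ← smul_add, mul_sub]
    congr 1
    abel

private theorem zt_tate [Nonempty I] (l : ℕ) (hl : ‖(l : F)‖ < 1) (hl0 : (l : F) ≠ 0)
    (A : Matrix I I F) (hA : A ∈ ρ.Zt l) (t : F) (ht : Aᵀ * ρ.J + ρ.J * A = t • ρ.J) (n i : ℕ)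
    (x : ExteriorAlgebra F (Fin n → I → F)) (hx : TateClass (ρ.act n) ρ.μ⁻¹ i x) :
    Dv n (Matrix.toLin' A) x = ((i : F) * t) • x := by
  obtain ⟨_, U, hU⟩ := hx
  obtain ⟨m, hm, γ, hγ, hlim⟩ := Zt_open ρ l hl hl0 U hA
  have hm0 : (m : F) ≠ 0 := Nat.cast_ne_zero.mpr hm.ne'
  have hc : Tendsto (fun k : ℕ => (l : F) ^ k) atTop (𝓝 0) :=
    tendsto_pow_atTop_nhds_zero_of_norm_lt_one hl
  have hc0 : ∀ k : ℕ, (l : F) ^ k ≠ 0 := fun k => pow_ne_zero k hl0
  have h1 := lim_der n (fun k => ρ.M (γ k)) (fun k => (l : F) ^ k) hc hc0 _ hlim x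
  have h2 : (((m : F) • A)ᵀ * ρ.J + ρ.J * ((m : F) • A)) = ((m : F) * t) • ρ.J := by
    rw [Matrix.transpose_smul, Matrix.smul_mul, Matrix.mul_smul, ← smul_add, ht, smul_smul]
  have h3 := lim_mult ρ.J ρ.det (fun k => ρ.M (γ k)) (fun k => (l : F) ^ k)
    (fun k => (ρ.μ (γ k) : F)) hc hc0 (fun k => ρ.eq (γ k)) _ _ h2 hlim
  have h4 : Tendsto (fun k => (ρ.μ (γ k) : F)) atTop (𝓝 1) := by
    have h5 := (hc.mul h3).add_const 1
    rw [zero_mul, zero_add] at h5
    refine h5.congr fun k => ?_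
    rw [← mul_assoc, mul_inv_cancel₀ (hc0 k), one_mul, sub_add_cancel]
  have h5 : Tendsto (fun k => ((l : F) ^ k)⁻¹ * ((ρ.μ (γ k) : F) ^ i - 1)) atTop
      (𝓝 ((i : F) * ((m : F) * t))) := by
    have h6 : Tendsto (fun k => ∑ j ∈ Finset.range i, (ρ.μ (γ k) : F) ^ j) atTop
        (𝓝 (∑ j ∈ Finset.range i, (1 : F) ^ j)) := tendsto_finsetSum _ fun j _ => h4.pow j
    have h7 := h3.mul h6
    have h8 : (m : F) * t * ∑ j ∈ Finset.range i, (1 : F) ^ j = (i : F) * ((m : F) * t) := by
      simp only [one_pow, Finset.sum_const, Finset.card_range, nsmul_eq_mul, mul_one]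
      ring
    rw [h8] at h7
    refine h7.congr fun k => ?_
    rw [mul_assoc, mul_geom_sum]
  have h6 : Cv (F := F) (fun k => (((l : F) ^ k)⁻¹ * ((ρ.μ (γ k) : F) ^ i - 1)) • x)
      (((i : F) * ((m : F) * t)) • x) := cv_smul h5 (cv_const x)
  have h7 : ∀ k, ((l : F) ^ k)⁻¹ •
      (ExteriorAlgebra.map ((Matrix.toLin' (ρ.M (γ k))).compLeft (Fin n)) x - x) =
      (((l : F) ^ k)⁻¹ * ((ρ.μ (γ k) : F) ^ i - 1)) • x := by
    intro k
    have h8 := hU (γ k) (hγ k)
    have h9 : ExteriorAlgebra.map ((Matrix.toLin' (ρ.M (γ k))).compLeft (Fin n)) x =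
        ((ρ.μ (γ k) : F) ^ i) • x := by
      have h10 := congrArg (fun z => ((ρ.μ (γ k) : F) ^ i) • z) h8
      simp only [smul_smul] at h10
      have h11 : (ρ.μ (γ k) : F) ^ i * (((ρ.μ⁻¹ : Γ →* Fˣ) (γ k) : Fˣ) : F) ^ i = 1 := by
        rw [← mul_pow, MonoidHom.inv_apply, Units.mul_inv, one_pow]
      rw [h11, one_smul] at h10
      exact h10
    rw [h9, mul_smul, sub_smul, one_smul]
  have h8 := cv_unique (cv_congr h1 h7) h6
  rw [map_smul, Dv_smul, LinearMap.smul_apply] at h8
  have h9 : (m : F) • (Dv n (Matrix.toLin' A) x) = (m : F) • (((i : F) * t) • x) := by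
    rw [h8, smul_smul]
    congr 1
    ring
  have h10 := congrArg (fun z => (m : F)⁻¹ • z) h9
  simp only [smul_smul, inv_mul_cancel₀ hm0, one_smul] at h10
  rw [h10, ← mul_assoc, inv_mul_cancel₀ hm0, one_mul]

theorem hh_tate (l : ℕ) (hl : ‖(l : F)‖ < 1) (hl0 : (l : F) ≠ 0) (X : Matrix I I F)
    (hX : X ∈ ρ.Hh l) (n i : ℕ) (x : ExteriorAlgebra F (Fin n → I → F))
    (hx : TateClass (ρ.act n) ρ.μ⁻¹ i x) : Dv n (Matrix.toLin' X) x = 0 := by
  rcases isEmpty_or_nonempty I with hI | hI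
  · have h1 : X = 0 := Subsingleton.elim _ _
    rw [h1, map_zero, Dv_zero, LinearMap.zero_apply]
  obtain ⟨hX1, s, hs⟩ := hX
  rw [mem_spJ] at hX1
  have key : ∀ A ∈ Submodule.span F (ρ.Zt l), ∃ t : F, Aᵀ * ρ.J + ρ.J * A = t • ρ.J ∧
      Dv n (Matrix.toLin' A) x = ((i : F) * t) • x := by
    intro A hA
    induction hA using Submodule.span_induction with
    | mem A hA =>
      obtain ⟨t, ht⟩ := Zt_mult ρ l hl hl0 hA
      exact ⟨t, ht, zt_tate ρ l hl hl0 A hA t ht n i x hx⟩
    | zero =>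
      refine ⟨0, ?_, ?_⟩
      · simp
      · rw [map_zero, Dv_zero, LinearMap.zero_apply, mul_zero, zero_smul]
    | add A B _ _ hA hB =>
      obtain ⟨t, h1, h2⟩ := hA
      obtain ⟨u, h3, h4⟩ := hB
      refine ⟨t + u, ?_, ?_⟩
      · rw [Matrix.transpose_add, Matrix.add_mul, Matrix.mul_add, add_add_add_comm, h1, h3,
          add_smul]
      · rw [map_add, Dv_add, LinearMap.add_apply, h2, h4, mul_add, add_smul]
    | smul r A _ hA =>
      obtain ⟨t, h1, h2⟩ := hA
      refine ⟨r * t, ?_, ?_⟩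
      · rw [Matrix.transpose_smul, Matrix.smul_mul, Matrix.mul_smul, ← smul_add, h1, smul_smul]
      · rw [map_smul, Dv_smul, LinearMap.smul_apply, h2, smul_smul]
        congr 1
        ring
  obtain ⟨t, h1, h2⟩ := key _ hs
  have h3 : (2 * s) • ρ.J = t • ρ.J := by
    rw [← h1, Matrix.transpose_add, Matrix.transpose_smul, Matrix.transpose_one, Matrix.add_mul,
      Matrix.mul_add, add_add_add_comm, hX1, zero_add, Matrix.smul_mul, Matrix.mul_smul,
      Matrix.one_mul, Matrix.mul_one, ← add_smul, two_mul]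
  have h4 : 2 * s = t := by
    by_contra hne
    have h5 : (2 * s - t) • ρ.J = 0 := by rw [sub_smul, h3, sub_self]
    have h6 : ρ.J = 0 := by
      rcases smul_eq_zero.mp h5 with h | h
      · exact absurd (sub_eq_zero.mp h) hne
      · exact h
    exact ρ.det (by rw [h6, Matrix.det_zero])
  have h5 : Matrix.toLin' (s • (1 : Matrix I I F)) = s • (1 : Module.End F (I → F)) := by
    rw [map_smul, Matrix.toLin'_one]
    rfl
  rw [map_add, Dv_add, LinearMap.add_apply, h5, Dv_smul, LinearMap.smul_apply,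
    dv_one n (2 * i) x hx.1, smul_smul, ← h4] at h2
  have h6 : s * ((2 * i : ℕ) : F) = (i : F) * (2 * s) := by
    push_cast
    ring
  rw [h6] at h2
  exact add_eq_right.mp h2

end Pool.Agent.Lib.MP_640417_ag.Ctl
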