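import Pool.Agent.Lib.MP_640417_ag.Ctl.Kill
import Pool.Agent.Lib.MP_640417_ag.Ctl.Tang
import Pool.Agent.Lib.MP_640417_ag.Ctl.CoordD
import Pool.Agent.Lib.MP_640417_ag.Ctl.Defs

/-!
# MP_640417_ag, Ctl: the Tate classes of codimension two on the fourth power control all Tate classes
-/

set_option autoImplicit false

namespace Pool.Agent.Lib.MP_640417_ag.Ctl

open Filter Topology Matrix Module Pool.Agent.Lib.MP_640417_ag Pool.Agent.Lib.MP_640417_ag.Frob
  Pool.Agent.Lib.MP_640417_ag.Glob Pool.Agent.Lib.MP_640417_ag.Four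

section

variable {F : Type} [NontriviallyNormedField F] {I : Type} [Fintype I] [DecidableEq I]
  {Γ : Type} [Group Γ] [TopologicalSpace Γ] {V : Type} [AddCommGroup V] [Module F V]
  [FiniteDimensional F V]

theorem coord_skew (ρ : H1Rep Γ F V) (e : Basis I F V) (R : MRep Γ F I)
    (h3 : ∀ i j, R.J i j = ρ.form (e i) (e j)) (X : Module.End F V) :
    LinearMap.toMatrix e e X ∈ spJ R.J ↔ ∀ x y, ρ.form (X x) y + ρ.form x (X y) = 0 := by
  have hJ : R.J = LinearMap.BilinForm.toMatrix e ρ.form := by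
    ext i j
    rw [h3, LinearMap.BilinForm.toMatrix_apply]
  have h : (LinearMap.toMatrix e e X)ᵀ * R.J + R.J * LinearMap.toMatrix e e X =
      LinearMap.BilinForm.toMatrix e (LinearMap.BilinForm.compLeft ρ.form X +
        LinearMap.BilinForm.compRight ρ.form X) := by
    rw [map_add, LinearMap.BilinForm.toMatrix_compLeft, LinearMap.BilinForm.toMatrix_compRight, hJ]
  show (LinearMap.toMatrix e e X)ᵀ * R.J + R.J * LinearMap.toMatrix e e X = 0 ↔ _
  rw [h, LinearEquiv.map_eq_zero_iff]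
  constructor
  · intro h0 x y
    exact LinearMap.congr_fun (LinearMap.congr_fun h0 x) y
  · intro h0
    exact LinearMap.ext fun x => LinearMap.ext fun y => h0 x y

theorem coord_inC (ρ : H1Rep Γ F V) (e : Basis I F V) (R : MRep Γ F I)
    (h1 : ∀ γ, R.M γ = LinearMap.toMatrix e e (ρ.T γ)) (c : Module.End F V) :
    R.InC (LinearMap.toMatrix e e c) ↔ ∃ U : OpenSubgroup Γ, ∀ γ ∈ U, c * ρ.T γ = ρ.T γ * c := by
  constructor
  · rintro ⟨U, hU⟩
    refine ⟨U, fun γ hγ => ?_⟩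
    apply (LinearMap.toMatrixAlgEquiv e).injective
    rw [map_mul, map_mul]
    have h2 := hU γ hγ
    rw [h1] at h2
    exact h2.symm
  · rintro ⟨U, hU⟩
    refine ⟨U, fun γ hγ => ?_⟩
    rw [h1]
    have h2 := congrArg (LinearMap.toMatrixAlgEquiv e) (hU γ hγ)
    rw [map_mul, map_mul] at h2
    exact h2.symm

theorem coord_zm (ρ : H1Rep Γ F V) (e : Basis I F V) (R : MRep Γ F I)
    (h1 : ∀ γ, R.M γ = LinearMap.toMatrix e e (ρ.T γ)) (h3 : ∀ i j, R.J i j = ρ.form (e i) (e j))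
    (z : Module.End F V) : LinearMap.toMatrix e e z ∈ Zm R ↔ CentralSkew ρ z := by
  show (R.InC _ ∧ (∀ c, R.InC c → _ = _) ∧ _ ∈ spJ R.J) ↔ _
  rw [coord_skew ρ e R h3, coord_inC ρ e R h1]
  refine and_congr Iff.rfl (and_congr ?_ Iff.rfl)
  constructor
  · intro h c hc
    have h2 := h _ ((coord_inC ρ e R h1 c).mpr hc)
    apply (LinearMap.toMatrixAlgEquiv e).injective
    rw [map_mul, map_mul]
    exact h2
  · intro h c hc
    obtain ⟨c', rfl⟩ := (LinearMap.toMatrix e e).surjective c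
    have h2 := congrArg (LinearMap.toMatrixAlgEquiv e) (h c' ((coord_inC ρ e R h1 c').mp hc))
    rw [map_mul, map_mul] at h2
    exact h2

end

/-- what kills the Tate classes of codimension two on the fourth power is in the Lie algebra -/
theorem mem_of_four (l : ℕ) [Fact l.Prime] {Γ : Type} [Group Γ]
    [TopologicalSpace Γ] [IsTopologicalGroup Γ] [CompactSpace Γ] {V : Type} [AddCommGroup V]
    [Module ℚ_[l] V] [FiniteDimensional ℚ_[l] V] (ρ : H1Rep Γ ℚ_[l] V) {I : Type} [Fintype I]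
    [DecidableEq I] (e : Basis I ℚ_[l] V) (R : MRep Γ ℚ_[l] I)
    (h1 : ∀ γ, R.M γ = LinearMap.toMatrix e e (ρ.T γ)) (h2 : R.μ = ρ.χ⁻¹)
    (h3 : ∀ i j, R.J i j = ρ.form (e i) (e j)) (hs : R.Semi)
    (X : Module.End ℚ_[l] V) (hX : ∀ x y, ρ.form (X x) y + ρ.form x (X y) = 0)
    (h4 : ∀ x, TateClass (fun γ => (ρ.T γ).compLeft (Fin 4)) ρ.χ 2 x →
      (∀ z, CentralSkew ρ z → Dv 4 z x = 0) → Dv 4 X x = 0) :
    LinearMap.toMatrix e e X ∈ Hp R l := by
  have hX' := (coord_skew ρ e R h3 X).mpr hX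
  refine mem_Hp R l ?_ ?_ hs _ hX' fun y hy hyz => ?_
  · rw [Padic.norm_p]
    exact inv_lt_one_of_one_lt₀ (by exact_mod_cast (Fact.out : l.Prime).one_lt)
  · exact_mod_cast (Fact.out : l.Prime).ne_zero
  · obtain ⟨x', hx', hx''⟩ := coord_dv' ρ e R h1 h2 4 2 y hy
    rw [← hx'']
    refine h4 x' hx' fun z hzz => ?_
    rw [hx'']
    exact hyz _ ((coord_zm ρ e R h1 h3 z).mpr hzz)

/-- elements of the Lie algebra kill the Tate classes which are killed by the central skew elements -/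
theorem kills_of_mem (l : ℕ) [Fact l.Prime] {Γ : Type} [Group Γ]
    [TopologicalSpace Γ] [IsTopologicalGroup Γ] [CompactSpace Γ] {V : Type} [AddCommGroup V]
    [Module ℚ_[l] V] [FiniteDimensional ℚ_[l] V] (ρ : H1Rep Γ ℚ_[l] V) {I : Type} [Fintype I]
    [DecidableEq I] (e : Basis I ℚ_[l] V) (R : MRep Γ ℚ_[l] I)
    (h1 : ∀ γ, R.M γ = LinearMap.toMatrix e e (ρ.T γ)) (h2 : R.μ = ρ.χ⁻¹)
    (h3 : ∀ i j, R.J i j = ρ.form (e i) (e j))
    (X : Module.End ℚ_[l] V) (hm : LinearMap.toMatrix e e X ∈ Hp R l)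
    (n i : ℕ) (x : ExteriorAlgebra ℚ_[l] (Fin n → V))
    (hx : TateClass (fun γ => (ρ.T γ).compLeft (Fin n)) ρ.χ i x)
    (hz : ∀ z, CentralSkew ρ z → Dv n z x = 0) : Dv n X x = 0 := by
  obtain ⟨y, hy, hy'⟩ := coord_dv ρ e R h1 h2 n i x hx
  rw [← hy']
  obtain ⟨A, hA, Z, hZ, hAZ⟩ := Submodule.mem_sup.mp hm
  rw [← hAZ, map_add, Dv_add, LinearMap.add_apply, hh_tate R l ?_ ?_ A hA n i y hy, zero_add]
  · obtain ⟨Z', rfl⟩ := (LinearMap.toMatrix e e).surjective Z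
    rw [hy']
    exact hz _ ((coord_zm ρ e R h1 h3 Z').mp hZ)
  · rw [Padic.norm_p]
    exact inv_lt_one_of_one_lt₀ (by exact_mod_cast (Fact.out : l.Prime).one_lt)
  · exact_mod_cast (Fact.out : l.Prime).ne_zero

/-- **Codimension two on the fourth power controls all Tate classes.** -/
theorem controls (l : ℕ) [Fact l.Prime] {Γ : Type} [Group Γ]
    [TopologicalSpace Γ] [IsTopologicalGroup Γ] [CompactSpace Γ] {V : Type} [AddCommGroup V]
    [Module ℚ_[l] V] [FiniteDimensional ℚ_[l] V] (ρ : H1Rep Γ ℚ_[l] V) (hsemi : Semisimple ρ)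
    (X : Module.End ℚ_[l] V) (hX : ∀ x y, ρ.form (X x) y + ρ.form x (X y) = 0)
    (h4 : ∀ x, TateClass (fun γ => (ρ.T γ).compLeft (Fin 4)) ρ.χ 2 x →
      (∀ z, CentralSkew ρ z → Dv 4 z x = 0) → Dv 4 X x = 0)
    (n i : ℕ) (x : ExteriorAlgebra ℚ_[l] (Fin n → V))
    (hx : TateClass (fun γ => (ρ.T γ).compLeft (Fin n)) ρ.χ i x)
    (hz : ∀ z, CentralSkew ρ z → Dv n z x = 0) : Dv n X x = 0 := by
  obtain ⟨R, h1, h2, h3⟩ := exists_coord ρ (Module.finBasis ℚ_[l] V)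
  exact kills_of_mem l ρ _ R h1 h2 h3 X
    (mem_of_four l ρ _ R h1 h2 h3 (coord_semi ρ _ R h1 hsemi) X hX h4) n i x hx hz

end Pool.Agent.Lib.MP_640417_ag.Ctl
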