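import Pool.Agent.Lib.MP_640417_ag.Ctl.DerE
import Pool.Agent.Lib.MP_640417_ag.Glob.TanH
import Pool.Agent.Lib.MP_640417_ag.CMRep

/-!
# MP_640417_ag, Ctl, module Tate (80 lines): Tate classes from operators on matrices

Let `Q` commute with the conjugation by `M γ`, `γ` in an open subgroup `U`. By `act4_tQ` (with `S = M γ`, `S' = M γ⁻¹`,
`μ = μ γ`), `emb_map`, `emb_smul`: `map (M γ) x = (μ γ)^2 • x` for `x = emb (tQ J Q)`, and `x ∈ ⋀^4` by `emb_mem` (as in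
`Glob/Lfa.lean`, `exists_p`; `(ρ.μ⁻¹ γ)^2 • map x = x`).
-/

set_option autoImplicit false

namespace Pool.Agent.Lib.MP_640417_ag.Ctl

open Matrix Pool.Agent.Lib.MP_640417_ag Pool.Agent.Lib.MP_640417_ag.Glob

variable {F : Type} [NontriviallyNormedField F] {I : Type} [Fintype I] [DecidableEq I]
  {Γ : Type} [Group Γ] [TopologicalSpace Γ] (ρ : MRep Γ F I)

theorem tate_Q (Q : Matrix I I F →ₗ[F] Matrix I I F) (U : OpenSubgroup Γ)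
    (hQ : ∀ γ ∈ U, ∀ Y, Q (ρ.M γ * Y * ρ.M γ⁻¹) = ρ.M γ * Q Y * ρ.M γ⁻¹) :
    TateClass (ρ.act 4) ρ.μ⁻¹ 2 (emb (tQ ρ.J Q)) := by
  refine ⟨emb_mem _, U, fun γ hγ => ?_⟩
  have hm : ρ.M γ * ρ.M γ⁻¹ = 1 := by rw [← map_mul, mul_inv_cancel, map_one]
  have hm' : ρ.M γ⁻¹ * ρ.M γ = 1 := by rw [← map_mul, inv_mul_cancel, map_one]
  have hconj : ∀ Y, Q (ρ.M γ⁻¹ * Y * ρ.M γ) = ρ.M γ⁻¹ * Q Y * ρ.M γ := by
    intro Y
    have h := hQ γ⁻¹ (inv_mem hγ) Y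
    rwa [inv_inv] at h
  have e1 : ExteriorAlgebra.map (ρ.act 4 γ) (emb (tQ ρ.J Q)) =
      emb (act4 (ρ.M γ) (tQ ρ.J Q)) := emb_map _ _
  have e2 : ((ρ.μ⁻¹ γ : Fˣ) : F) * (ρ.μ γ : F) = 1 := by
    rw [MonoidHom.inv_apply, Units.inv_mul]
  rw [e1, act4_tQ ρ.J ρ.det Q (ρ.M γ) (ρ.M γ⁻¹) (ρ.μ γ : F) hm hm' (ρ.eq γ) hconj, emb_smul,
    smul_smul, ← mul_pow, e2, one_pow, one_smul]

end Pool.Agent.Lib.MP_640417_ag.Ctl
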